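import Mathlib

set_option autoImplicit false

/-!
Definitions and interface statements for the proof of Thompson's conjecture on the
2-length (S03233).  Everything is stated for subgroups of one ambient finite group.
-/

namespace Pool.Agent.Th

/-- The subgroup generated by the 2-elements of `H`. -/
def Ev {G : Type} [Group G] (H : Subgroup G) : Subgroup G :=
  Subgroup.closure {x | x ∈ H ∧ ∃ n : ℕ, x ^ (2 ^ n) = 1}

/-- The subgroup generated by the elements of odd order of `H`. -/
def Od {G : Type} [Group G] (H : Subgroup G) : Subgroup G :=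
  Subgroup.closure {x | x ∈ H ∧ ∃ n : ℕ, x ^ (2 * n + 1) = 1}

/-- `res k H = ⊥` iff `H` has 2-length at most `k`. -/
def res {G : Type} [Group G] : ℕ → Subgroup G → Subgroup G
  | 0, H => Ev H
  | k + 1, H => Ev (Od (res k H))

/-- The conjugate `g H g⁻¹`. -/
def cj {G : Type} [Group G] (g : G) (H : Subgroup G) : Subgroup G :=
  H.map (MulAut.conj g).toMonoidHom

/-- `A` is solitary: `P` is the unique Sylow 2-subgroup containing `A`. -/
structure SolIn {G : Type} [Group G] (A P : Subgroup G) : Prop where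
  isP : IsPGroup 2 P
  le : A ≤ P
  max : ∀ B : Subgroup G, IsPGroup 2 B → A ≤ B → B ≤ P

/-- The bound `F` works for all solvable groups with a solitary 2-subgroup of order `≤ m`. -/
def Bd (m F : ℕ) : Prop :=
  ∀ (G : Type) [Group G] [Finite G] [Group.IsSolvable G] (A P : Subgroup G),
    SolIn A P → Nat.card A ≤ m → res F (⊤ : Subgroup G) = ⊥

/-- Lemma W (Lemma M of the outline). -/
def LemW : Prop :=
  ∀ m F : ℕ, Bd (m - 1) F →
    ∀ (G : Type) [Group G] [Finite G] [Group.IsSolvable G] (A P M C : Subgroup G) (s : G),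
      SolIn A P → Nat.card A ≤ m → M.Normal → C ≤ M →
      (∀ x ∈ M, ∀ c ∈ C, x * c * x⁻¹ ∈ C) →
      s ∈ A → s ≠ 1 → (∀ c ∈ C, s * c * s⁻¹ ∈ C) →
      (∀ x ∈ M, s * x * s⁻¹ * x⁻¹ ∈ C) →
      res (m * (F + 1)) M ≤ C

/-- Solvable groups generated by elements with small commutator on an abelian group. -/
def BC : Prop :=
  ∀ c : ℕ, ∃ g : ℕ,
    ∀ (K : Type) [Group K] [Finite K] [Group.IsSolvable K] (T : Type) [CommGroup T] [Finite T]
      (φ : K →* MulAut T) (S : Set K),
      Subgroup.closure S = ⊤ →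
      (∀ s ∈ S, Nat.card (Set.range fun t : T => φ s t * t⁻¹) ≤ c) →
      ∀ x ∈ res g (⊤ : Subgroup K), φ x = 1

/-- Theorem I: stabilisers in `A` of all points of `G ⧸ H` nontrivial. -/
def ThmI (m h : ℕ) : Prop :=
  ∀ (G : Type) [Group G] [Finite G] [Group.IsSolvable G] (A P H : Subgroup G),
    SolIn A P → Nat.card A ≤ m → (∀ g : G, A ⊓ cj g H ≠ ⊥) →
    res h (⊤ : Subgroup G) ≤ H

/-- Proposition S2: linear representations in which `A` has no fixed vectors. -/
def PropS2 (m h : ℕ) : Prop :=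
  ∀ (G : Type) [Group G] [Finite G] [Group.IsSolvable G] (A P Q : Subgroup G),
    SolIn A P → Nat.card A ≤ m → Q.Normal → IsPGroup 2 Q →
    ∀ (k : Type) [Field k] [IsAlgClosed k] (V : Type) [AddCommGroup V] [Module k V]
      [FiniteDimensional k V] (ρ : Representation k G V),
      (2 : k) ≠ 0 → (∀ v : V, ∑ᶠ a : A, ρ (a : G) v = 0) →
      ∀ x ∈ res h (⊤ : Subgroup G), ∀ y ∈ Q, ρ (x * y * x⁻¹ * y⁻¹) = 1

/-- Reduction of 2-separable groups to solvable ones. -/
def Red : Prop :=
  ∀ (G : Type) [Group G] [Finite G], (∃ n, res n (⊤ : Subgroup G) = ⊥) →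
    ∀ P : Sylow 2 G, ∃ H : Subgroup G, (P : Subgroup G) ≤ H ∧ Group.IsSolvable H ∧
      ∀ k, res k H = ⊥ → res (k + 1) (⊤ : Subgroup G) = ⊥

end Pool.Agent.Th
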