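import Mathlib
import Pool.Agent.Helper9.Th.Defs

set_option autoImplicit false

namespace Pool.Agent.Th

open Subgroup

section order

variable {G : Type} [Group G]

theorem Ev_le (H : Subgroup G) : Ev H ≤ H := by
  unfold Ev; rw [closure_le]; exact fun x hx => hx.1

theorem Od_le (H : Subgroup G) : Od H ≤ H := by
  unfold Od; rw [closure_le]; exact fun x hx => hx.1

theorem mem_Ev {H : Subgroup G} {x : G} (hx : x ∈ H) (h : ∃ n : ℕ, x ^ (2 ^ n) = 1) : x ∈ Ev H :=
  subset_closure ⟨hx, h⟩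

theorem mem_Od {H : Subgroup G} {x : G} (hx : x ∈ H) (h : ∃ n : ℕ, x ^ (2 * n + 1) = 1) :
    x ∈ Od H :=
  subset_closure ⟨hx, h⟩

theorem Ev_le_iff {H K : Subgroup G} :
    Ev H ≤ K ↔ ∀ x ∈ H, (∃ n : ℕ, x ^ (2 ^ n) = 1) → x ∈ K := by
  unfold Ev; rw [closure_le]
  exact ⟨fun h x hx hn => h ⟨hx, hn⟩, fun h x hx => h x hx.1 hx.2⟩

theorem Od_le_iff {H K : Subgroup G} :
    Od H ≤ K ↔ ∀ x ∈ H, (∃ n : ℕ, x ^ (2 * n + 1) = 1) → x ∈ K := by
  unfold Od; rw [closure_le]
  exact ⟨fun h x hx hn => h ⟨hx, hn⟩, fun h x hx => h x hx.1 hx.2⟩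

theorem Ev_mono {H K : Subgroup G} (h : H ≤ K) : Ev H ≤ Ev K :=
  Ev_le_iff.2 fun _ hx hn => mem_Ev (h hx) hn

theorem Od_mono {H K : Subgroup G} (h : H ≤ K) : Od H ≤ Od K :=
  Od_le_iff.2 fun _ hx hn => mem_Od (h hx) hn

theorem Ev_idem (H : Subgroup G) : Ev (Ev H) = Ev H :=
  le_antisymm (Ev_le _) (Ev_le_iff.2 fun _ hx hn => mem_Ev (mem_Ev hx hn) hn)

theorem Od_idem (H : Subgroup G) : Od (Od H) = Od H :=
  le_antisymm (Od_le _) (Od_le_iff.2 fun _ hx hn => mem_Od (mem_Od hx hn) hn)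

@[simp] theorem Ev_bot : Ev (⊥ : Subgroup G) = ⊥ := le_bot_iff.1 (Ev_le _)

@[simp] theorem Od_bot : Od (⊥ : Subgroup G) = ⊥ := le_bot_iff.1 (Od_le _)

theorem res_zero (H : Subgroup G) : res 0 H = Ev H := rfl

theorem res_succ (k : ℕ) (H : Subgroup G) : res (k + 1) H = Ev (Od (res k H)) := rfl

theorem res_le (k : ℕ) (H : Subgroup G) : res k H ≤ H := by
  induction k with
  | zero => exact Ev_le H
  | succ k ih => exact (Ev_le _).trans ((Od_le _).trans ih)

theorem res_mono (k : ℕ) {H K : Subgroup G} (h : H ≤ K) : res k H ≤ res k K := by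
  induction k with
  | zero => exact Ev_mono h
  | succ k ih => exact Ev_mono (Od_mono ih)

theorem res_succ_le (k : ℕ) (H : Subgroup G) : res (k + 1) H ≤ res k H :=
  (Ev_le _).trans (Od_le _)

theorem res_antitone (H : Subgroup G) {j k : ℕ} (h : j ≤ k) : res k H ≤ res j H := by
  induction h with
  | refl => exact le_rfl
  | step _ ih => exact (res_succ_le _ _).trans ih

theorem Ev_res (k : ℕ) (H : Subgroup G) : Ev (res k H) = res k H := by
  cases k with
  | zero => exact Ev_idem H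
  | succ k => exact Ev_idem _

theorem res_add (j k : ℕ) (H : Subgroup G) : res (j + k) H = res k (res j H) := by
  induction k with
  | zero => exact (Ev_res j H).symm
  | succ k ih => show Ev (Od (res (j + k) H)) = Ev (Od (res k (res j H))); rw [ih]

theorem res_le_of_res_le {j k : ℕ} {H K L : Subgroup G} (h1 : res j H ≤ K) (h2 : res k K ≤ L) :
    res (j + k) H ≤ L := by
  rw [res_add]; exact (res_mono k h1).trans h2

@[simp] theorem res_bot (k : ℕ) : res k (⊥ : Subgroup G) = ⊥ := le_bot_iff.1 (res_le _ _)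

theorem Od_res_mono (k : ℕ) (H : Subgroup G) : Od (res k H) ≤ res k H := Od_le _

end order

section maps

variable {G G' : Type} [Group G] [Group G']

theorem exists_lift_two [Finite G] (f : G →* G') (H : Subgroup G) {y : G'} (hy : y ∈ H.map f)
    (h : ∃ n : ℕ, y ^ (2 ^ n) = 1) : ∃ x ∈ H, (∃ n : ℕ, x ^ (2 ^ n) = 1) ∧ f x = y := by
  obtain ⟨x, hx, rfl⟩ := hy
  obtain ⟨n, hn⟩ := h
  obtain ⟨a, b, hb, hab⟩ := Nat.exists_eq_two_pow_mul_odd (n := orderOf x) (orderOf_pos x).ne'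
  have hcop : Nat.Coprime (2 ^ n) b := Nat.Coprime.pow_left n (Nat.coprime_two_left.2 hb)
  obtain ⟨t, ht1, ht2⟩ := Nat.chineseRemainder hcop 1 0
  refine ⟨x ^ t, H.pow_mem hx t, ⟨a, ?_⟩, ?_⟩
  · rw [← pow_mul]
    obtain ⟨c, hc⟩ := (Nat.modEq_zero_iff_dvd.1 ht2)
    rw [hc]
    have : b * c * 2 ^ a = orderOf x * c := by rw [hab]; ring
    rw [this, pow_mul, pow_orderOf_eq_one, one_pow]
  · rw [map_pow]
    have h1 : orderOf (f x) ∣ 2 ^ n := orderOf_dvd_of_pow_eq_one hn
    have h2 : t ≡ 1 [MOD orderOf (f x)] := ht1.of_dvd h1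
    rw [pow_eq_pow_iff_modEq.2 h2, pow_one]

theorem exists_lift_odd [Finite G] (f : G →* G') (H : Subgroup G) {y : G'} (hy : y ∈ H.map f)
    (h : ∃ n : ℕ, y ^ (2 * n + 1) = 1) : ∃ x ∈ H, (∃ n : ℕ, x ^ (2 * n + 1) = 1) ∧ f x = y := by
  obtain ⟨x, hx, rfl⟩ := hy
  obtain ⟨n, hn⟩ := h
  obtain ⟨a, b, hb, hab⟩ := Nat.exists_eq_two_pow_mul_odd (n := orderOf x) (orderOf_pos x).ne'
  have hodd : Odd (2 * n + 1) := ⟨n, rfl⟩
  have hcop : Nat.Coprime (2 * n + 1) (2 ^ a) :=
    Nat.Coprime.pow_right a (Nat.coprime_two_right.2 hodd)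
  obtain ⟨t, ht1, ht2⟩ := Nat.chineseRemainder hcop 1 0
  obtain ⟨e, he⟩ := hb
  refine ⟨x ^ t, H.pow_mem hx t, ⟨e, ?_⟩, ?_⟩
  · rw [← pow_mul, ← he]
    obtain ⟨c, hc⟩ := (Nat.modEq_zero_iff_dvd.1 ht2)
    rw [hc]
    have : 2 ^ a * c * b = orderOf x * c := by rw [hab]; ring
    rw [this, pow_mul, pow_orderOf_eq_one, one_pow]
  · rw [map_pow]
    have h1 : orderOf (f x) ∣ 2 * n + 1 := orderOf_dvd_of_pow_eq_one hn
    have h2 : t ≡ 1 [MOD orderOf (f x)] := ht1.of_dvd h1
    rw [pow_eq_pow_iff_modEq.2 h2, pow_one]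

theorem Ev_map [Finite G] (f : G →* G') (H : Subgroup G) : Ev (H.map f) = (Ev H).map f := by
  apply le_antisymm
  · rw [Ev_le_iff]
    intro y hy hn
    obtain ⟨x, hx, hxn, rfl⟩ := exists_lift_two f H hy hn
    exact mem_map_of_mem f (mem_Ev hx hxn)
  · rw [map_le_iff_le_comap, Ev_le_iff]
    rintro x hx ⟨n, hn⟩
    exact mem_Ev (mem_map_of_mem f hx) ⟨n, by rw [← map_pow, hn, map_one]⟩

theorem Od_map [Finite G] (f : G →* G') (H : Subgroup G) : Od (H.map f) = (Od H).map f := by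
  apply le_antisymm
  · rw [Od_le_iff]
    intro y hy hn
    obtain ⟨x, hx, hxn, rfl⟩ := exists_lift_odd f H hy hn
    exact mem_map_of_mem f (mem_Od hx hxn)
  · rw [map_le_iff_le_comap, Od_le_iff]
    rintro x hx ⟨n, hn⟩
    exact mem_Od (mem_map_of_mem f hx) ⟨n, by rw [← map_pow, hn, map_one]⟩

theorem res_map [Finite G] (f : G →* G') (k : ℕ) (H : Subgroup G) :
    res k (H.map f) = (res k H).map f := by
  induction k with
  | zero => exact Ev_map f H
  | succ k ih => rw [res_succ, ih, Od_map, Ev_map, res_succ]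

/-- `res` inside a subgroup seen as a group, pushed forward. -/
theorem res_map_subtype [Finite G] (H : Subgroup G) (k : ℕ) (K : Subgroup H) :
    (res k K).map H.subtype = res k (K.map H.subtype) :=
  (res_map H.subtype k K).symm

theorem res_top_map_subtype [Finite G] (H : Subgroup G) (k : ℕ) :
    (res k (⊤ : Subgroup H)).map H.subtype = res k H := by
  rw [← res_map]
  congr 1
  ext x; simp

theorem res_top_eq_bot_iff [Finite G] (H : Subgroup G) (k : ℕ) :
    res k (⊤ : Subgroup H) = ⊥ ↔ res k H = ⊥ := by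
  rw [← res_top_map_subtype H k]
  constructor
  · intro h; rw [h]; simp
  · intro h
    rwa [map_eq_bot_iff_of_injective _ H.subtype_injective] at h

theorem res_top_map [Finite G] (f : G →* G') (hf : Function.Surjective f) (k : ℕ) :
    (res k (⊤ : Subgroup G)).map f = res k (⊤ : Subgroup G') := by
  rw [← res_map, map_top_of_surjective f hf]

/-- `res k H ≤ N` can be tested in `G ⧸ N`. -/
theorem res_le_iff_map_mk [Finite G] (N : Subgroup G) [N.Normal] (k : ℕ) (H : Subgroup G) :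
    res k H ≤ N ↔ res k (H.map (QuotientGroup.mk' N)) = ⊥ := by
  rw [res_map, Subgroup.map_eq_bot_iff, QuotientGroup.ker_mk']

theorem res_le_ker_iff [Finite G] (f : G →* G') (k : ℕ) (H : Subgroup G) :
    res k H ≤ f.ker ↔ res k (H.map f) = ⊥ := by
  rw [res_map, Subgroup.map_eq_bot_iff]

theorem Ev_le_ker_iff [Finite G] (f : G →* G') (H : Subgroup G) :
    Ev H ≤ f.ker ↔ Ev (H.map f) = ⊥ := by
  rw [Ev_map, Subgroup.map_eq_bot_iff]

theorem Od_le_ker_iff [Finite G] (f : G →* G') (H : Subgroup G) :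
    Od H ≤ f.ker ↔ Od (H.map f) = ⊥ := by
  rw [Od_map, Subgroup.map_eq_bot_iff]

end maps

section conj

variable {G : Type} [Group G]

theorem mem_cj {g x : G} {H : Subgroup G} : x ∈ cj g H ↔ g⁻¹ * x * g ∈ H := by
  unfold cj
  rw [mem_map]
  constructor
  · rintro ⟨y, hy, rfl⟩
    simpa [mul_assoc] using hy
  · intro h
    exact ⟨g⁻¹ * x * g, h, by simp [mul_assoc]⟩

theorem conj_mem_cj {g x : G} {H : Subgroup G} (hx : x ∈ H) : g * x * g⁻¹ ∈ cj g H := by
  rw [mem_cj]; simpa [mul_assoc] using hx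

theorem cj_mono {g : G} {H K : Subgroup G} (h : H ≤ K) : cj g H ≤ cj g K := map_mono h

theorem cj_cj (a b : G) (H : Subgroup G) : cj a (cj b H) = cj (a * b) H := by
  ext x; simp only [mem_cj, mul_inv_rev, mul_assoc]

@[simp] theorem cj_one (H : Subgroup G) : cj 1 H = H := by ext x; simp [mem_cj]

theorem cj_le_iff {g : G} {H K : Subgroup G} : cj g H ≤ K ↔ ∀ x ∈ H, g * x * g⁻¹ ∈ K := by
  constructor
  · intro h x hx; exact h (conj_mem_cj hx)
  · intro h x hx
    have := h _ (mem_cj.1 hx)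
    simpa [mul_assoc] using this

theorem cj_le_iff' {g : G} {H K : Subgroup G} : cj g H ≤ K ↔ H ≤ cj g⁻¹ K := by
  constructor
  · intro h; have := cj_mono (g := g⁻¹) h; rwa [cj_cj, inv_mul_cancel, cj_one] at this
  · intro h; have := cj_mono (g := g) h; rwa [cj_cj, mul_inv_cancel, cj_one] at this

theorem le_cj_iff {g : G} {H K : Subgroup G} : H ≤ cj g K ↔ cj g⁻¹ H ≤ K := by
  rw [cj_le_iff', inv_inv]

theorem cj_normal (g : G) (N : Subgroup G) [hN : N.Normal] : cj g N = N := by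
  ext x
  rw [mem_cj]
  exact ⟨fun h => by simpa [mul_assoc] using hN.conj_mem _ h g,
    fun h => by simpa [mul_assoc] using hN.conj_mem _ h g⁻¹⟩

theorem cj_self_of_mem {g : G} {H : Subgroup G} (hg : g ∈ H) : cj g H = H := by
  ext x
  rw [mem_cj]
  constructor
  · intro h
    have := H.mul_mem (H.mul_mem hg h) (H.inv_mem hg)
    simpa [mul_assoc] using this
  · intro h
    exact H.mul_mem (H.mul_mem (H.inv_mem hg) h) hg

theorem card_cj (g : G) (H : Subgroup G) : Nat.card (cj g H) = Nat.card H :=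
  (Nat.card_congr (H.equivMapOfInjective _ (MulAut.conj g).injective).toEquiv).symm

/-- equality from one inclusion in a finite group -/
theorem cj_eq_of_le [Finite G] {g : G} {H : Subgroup G} (h : cj g H ≤ H) : cj g H = H :=
  eq_of_le_of_card_ge h (by rw [card_cj])

theorem cj_res [Finite G] (g : G) (k : ℕ) (H : Subgroup G) : cj g (res k H) = res k (cj g H) :=
  (res_map _ k H).symm

theorem cj_Ev [Finite G] (g : G) (H : Subgroup G) : cj g (Ev H) = Ev (cj g H) :=
  (Ev_map _ H).symm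

theorem cj_Od [Finite G] (g : G) (H : Subgroup G) : cj g (Od H) = Od (cj g H) :=
  (Od_map _ H).symm

theorem cj_sup (g : G) (H K : Subgroup G) : cj g (H ⊔ K) = cj g H ⊔ cj g K := map_sup _ _ _

theorem cj_inf (g : G) (H K : Subgroup G) : cj g (H ⊓ K) = cj g H ⊓ cj g K := by
  ext x; simp [mem_cj, mem_inf]

theorem normal_of_cj {N : Subgroup G} (h : ∀ g, cj g N ≤ N) : N.Normal :=
  ⟨fun _ hn g => h g (conj_mem_cj hn)⟩

instance res_normal [Finite G] (k : ℕ) (N : Subgroup G) [N.Normal] : (res k N).Normal :=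
  normal_of_cj fun g => by rw [cj_res, cj_normal]

instance Ev_normal [Finite G] (N : Subgroup G) [N.Normal] : (Ev N).Normal :=
  normal_of_cj fun g => by rw [cj_Ev, cj_normal]

instance Od_normal [Finite G] (N : Subgroup G) [N.Normal] : (Od N).Normal :=
  normal_of_cj fun g => by rw [cj_Od, cj_normal]

/-- a normal subgroup contained in `H` is contained in all conjugates. -/
theorem le_cj_of_normal {N H : Subgroup G} [N.Normal] (h : N ≤ H) (g : G) : N ≤ cj g H := by
  have := cj_mono (g := g) h; rwa [cj_normal] at this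

end conj

end Pool.Agent.Th
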