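import Mathlib
import Pool.Agent.Helper9.Th.Basic

set_option autoImplicit false

namespace Pool.Agent.Th

open Subgroup

section twoGroups

variable {G : Type} [Group G]

theorem isTwo_of_orderOf {x : G} {n : ℕ} (h : orderOf x ∣ 2 ^ n) : ∃ n : ℕ, x ^ (2 ^ n) = 1 :=
  ⟨n, orderOf_dvd_iff_pow_eq_one.1 h⟩

theorem eq_one_of_two_odd {x : G} (h1 : ∃ n : ℕ, x ^ (2 ^ n) = 1)
    (h2 : ∃ n : ℕ, x ^ (2 * n + 1) = 1) : x = 1 := by
  obtain ⟨n, hn⟩ := h1
  obtain ⟨m, hm⟩ := h2
  have a1 : orderOf x ∣ 2 ^ n := orderOf_dvd_of_pow_eq_one hn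
  have a2 : orderOf x ∣ 2 * m + 1 := orderOf_dvd_of_pow_eq_one hm
  have hcop : Nat.Coprime (2 ^ n) (2 * m + 1) :=
    Nat.Coprime.pow_left n (Nat.coprime_two_left.2 ⟨m, rfl⟩)
  have := Nat.dvd_gcd a1 a2
  rw [hcop.gcd_eq_one, Nat.dvd_one] at this
  exact orderOf_eq_one_iff.1 this

theorem odd_of_card {H : Subgroup G} [Finite H] (h : ¬ 2 ∣ Nat.card H) {x : G} (hx : x ∈ H) :
    ∃ n : ℕ, x ^ (2 * n + 1) = 1 := by
  have h1 : Odd (Nat.card H) := by rwa [← Nat.not_even_iff_odd, even_iff_two_dvd]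
  obtain ⟨n, hn⟩ := h1
  refine ⟨n, ?_⟩
  rw [← hn]
  have := congrArg Subtype.val (pow_card_eq_one' (x := (⟨x, hx⟩ : H)))
  rwa [coe_pow, coe_one] at this

theorem Ev_eq_bot_iff [Finite G] {H : Subgroup G} : Ev H = ⊥ ↔ ¬ 2 ∣ Nat.card H := by
  constructor
  · intro h hd
    obtain ⟨x, hx⟩ := exists_prime_orderOf_dvd_card' (G := H) 2 hd
    have h1 : (x : G) ∈ Ev H := mem_Ev x.2 ⟨1, by
      have : x ^ 2 = 1 := by rw [← hx]; exact pow_orderOf_eq_one x
      simpa [Subtype.ext_iff] using this⟩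
    rw [h, mem_bot] at h1
    have : x = 1 := Subtype.ext h1
    rw [this, orderOf_one] at hx
    omega
  · intro h
    rw [eq_bot_iff, Ev_le_iff]
    intro x hx hn
    rw [mem_bot]
    exact eq_one_of_two_odd hn (odd_of_card h hx)

theorem Od_eq_bot_iff [Finite G] {H : Subgroup G} : Od H = ⊥ ↔ IsPGroup 2 H := by
  constructor
  · rintro h ⟨x, hx⟩
    obtain ⟨a, b, hb, hab⟩ := Nat.exists_eq_two_pow_mul_odd (n := orderOf x) (orderOf_pos x).ne'
    obtain ⟨e, he⟩ := hb
    refine ⟨a, ?_⟩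
    have h1 : x ^ (2 ^ a) ∈ Od H := mem_Od (H.pow_mem hx _) ⟨e, by
      rw [← pow_mul, ← he, ← hab, pow_orderOf_eq_one]⟩
    rw [h, mem_bot] at h1
    exact Subtype.ext h1
  · intro h
    rw [eq_bot_iff, Od_le_iff]
    intro x hx hn
    rw [mem_bot]
    obtain ⟨k, hk⟩ := h ⟨x, hx⟩
    exact eq_one_of_two_odd ⟨k, by simpa [Subtype.ext_iff] using hk⟩ hn

theorem isTwo_of_isPGroup {H : Subgroup G} (h : IsPGroup 2 H) {x : G} (hx : x ∈ H) :
    ∃ n : ℕ, x ^ (2 ^ n) = 1 := by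
  obtain ⟨k, hk⟩ := h ⟨x, hx⟩
  exact ⟨k, by simpa [Subtype.ext_iff] using hk⟩

theorem Ev_eq_of_isPGroup {H : Subgroup G} (h : IsPGroup 2 H) : Ev H = H :=
  le_antisymm (Ev_le _) fun _ hx => mem_Ev hx (isTwo_of_isPGroup h hx)

theorem Od_eq_of_odd {H : Subgroup G} [Finite H] (h : ¬ 2 ∣ Nat.card H) : Od H = H :=
  le_antisymm (Od_le _) fun _ hx => mem_Od hx (odd_of_card h hx)

theorem res_eq_bot_of_odd [Finite G] {H : Subgroup G} (h : ¬ 2 ∣ Nat.card H) (k : ℕ) :
    res k H = ⊥ :=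
  le_bot_iff.1 ((res_antitone H (Nat.zero_le k)).trans (Ev_eq_bot_iff.2 h).le)

theorem res_one_eq_bot_of_Ev [Finite G] {H : Subgroup G} (h : IsPGroup 2 (Ev H)) :
    res 1 H = ⊥ := by
  show Ev (Od (Ev H)) = ⊥
  rw [Od_eq_bot_iff.2 h, Ev_bot]

theorem res_one_eq_bot_of_isPGroup [Finite G] {H : Subgroup G} (h : IsPGroup 2 H) :
    res 1 H = ⊥ := by
  apply res_one_eq_bot_of_Ev
  rwa [Ev_eq_of_isPGroup h]

/-- if all 2-elements of `H` lie in a 2-group then `res 1 H = ⊥`. -/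
theorem res_one_eq_bot_of_le [Finite G] {H P : Subgroup G} (hP : IsPGroup 2 P)
    (h : ∀ x ∈ H, (∃ n : ℕ, x ^ (2 ^ n) = 1) → x ∈ P) : res 1 H = ⊥ :=
  res_one_eq_bot_of_Ev (hP.to_le (Ev_le_iff.2 h))

theorem Ev_isPGroup_of_comm {H : Subgroup G} (h : ∀ x ∈ H, ∀ y ∈ H, x * y = y * x) :
    IsPGroup 2 (Ev H) := by
  have key : ∀ x ∈ Ev H, ∃ n : ℕ, x ^ (2 ^ n) = 1 := by
    intro x hx
    have hx' := hx
    unfold Ev at hx
    induction hx using closure_induction with
    | mem x hx => exact hx.2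
    | one => exact ⟨0, by simp⟩
    | mul x y hx hy ihx ihy =>
      have hxE : x ∈ Ev H := hx
      have hyE : y ∈ Ev H := hy
      obtain ⟨n, hn⟩ := ihx hxE
      obtain ⟨m, hm⟩ := ihy hyE
      have hc : Commute x y := h x (Ev_le H hxE) y (Ev_le H hyE)
      refine ⟨n + m, ?_⟩
      rw [hc.mul_pow, pow_add, pow_mul, hn, one_pow, one_mul, mul_comm, pow_mul, hm, one_pow]
    | inv x hx ihx =>
      have hxE : x ∈ Ev H := hx
      obtain ⟨n, hn⟩ := ihx hxE
      exact ⟨n, by rw [inv_pow, hn, inv_one]⟩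
  rintro ⟨x, hx⟩
  obtain ⟨n, hn⟩ := key x hx
  exact ⟨n, Subtype.ext (by simpa using hn)⟩

theorem res_one_eq_bot_of_comm [Finite G] {H : Subgroup G}
    (h : ∀ x ∈ H, ∀ y ∈ H, x * y = y * x) : res 1 H = ⊥ :=
  res_one_eq_bot_of_Ev (Ev_isPGroup_of_comm h)

theorem res_one_eq_bot_of_isNilpotent [Finite G] {H : Subgroup G} (h : Group.IsNilpotent H) :
    res 1 H = ⊥ := by
  rw [← res_top_eq_bot_iff]
  have hS : ∀ (p : ℕ) (_ : Fact p.Prime) (P : Sylow p H), (P : Subgroup H).Normal :=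
    ((Group.isNilpotent_of_finite_tfae (G := H)).out 0 3).1 h
  obtain ⟨P⟩ : Nonempty (Sylow 2 H) := inferInstance
  have hPn := hS 2 ⟨Nat.prime_two⟩ P
  apply res_one_eq_bot_of_le P.2
  intro x _ hx
  obtain ⟨n, hn⟩ := hx
  have h1 : IsPGroup 2 (zpowers x) := by
    rintro ⟨y, hy⟩
    obtain ⟨k, rfl⟩ := mem_zpowers_iff.1 hy
    refine ⟨n, Subtype.ext ?_⟩
    simp only [coe_pow, coe_one]
    rw [← zpow_natCast, ← zpow_mul, mul_comm, zpow_mul, zpow_natCast, hn, one_zpow]
  obtain ⟨Q, hQ⟩ := h1.exists_le_sylow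
  have : Q = P := by
    letI := Sylow.unique_of_normal P hPn
    exact Subsingleton.elim _ _
  rw [← this]
  exact hQ (mem_zpowers x)

/-- commutators in `N` kill one `res`-step. -/
theorem res_one_le_of_comm [Finite G] {H N : Subgroup G} [N.Normal]
    (h : ∀ x ∈ H, ∀ y ∈ H, x * y * x⁻¹ * y⁻¹ ∈ N) : res 1 H ≤ N := by
  rw [res_le_iff_map_mk]
  apply res_one_eq_bot_of_comm
  rintro _ ⟨x, hx, rfl⟩ _ ⟨y, hy, rfl⟩
  have := h x hx y hy
  rw [← QuotientGroup.eq_one_iff] at this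
  simp only [QuotientGroup.mk'_apply]
  rw [← QuotientGroup.mk_mul, ← QuotientGroup.mk_mul, QuotientGroup.eq]
  have h2 := h y⁻¹ (H.inv_mem hy) x⁻¹ (H.inv_mem hx)
  simpa [mul_assoc] using h2

end twoGroups

section sup

variable {G : Type} [Group G]

theorem card_sup_dvd [Finite G] (H K : Subgroup G) [K.Normal] :
    Nat.card (H ⊔ K : Subgroup G) ∣ Nat.card H * Nat.card K := by
  have h1 : K.relIndex (H ⊔ K) ∣ Nat.card H := by
    rw [relIndex_sup_right]
    exact (relIndex_dvd_card K H)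
  have h2 : Nat.card (H ⊔ K : Subgroup G) = K.relIndex (H ⊔ K) * Nat.card K := by
    rw [← relIndex_bot_left, ← relIndex_bot_left, mul_comm,
      relIndex_mul_relIndex _ _ _ bot_le le_sup_right]
  rw [h2]
  exact Nat.mul_dvd_mul_right h1 _

theorem Ev_sup_eq_bot [Finite G] {H K : Subgroup G} [K.Normal] (hH : Ev H = ⊥) (hK : Ev K = ⊥) :
    Ev (H ⊔ K) = ⊥ := by
  rw [Ev_eq_bot_iff] at *
  intro h
  rcases (Nat.Prime.dvd_mul Nat.prime_two).1 (h.trans (card_sup_dvd H K)) with h1 | h1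
  · exact hH h1
  · exact hK h1

theorem Od_sup_eq_bot [Finite G] {H K : Subgroup G} [K.Normal] (hH : Od H = ⊥) (hK : Od K = ⊥) :
    Od (H ⊔ K) = ⊥ := by
  rw [Od_eq_bot_iff] at *
  exact hH.to_sup_of_normal_right hK

theorem Ev_sup [Finite G] (H K : Subgroup G) [H.Normal] [K.Normal] :
    Ev (H ⊔ K) = Ev H ⊔ Ev K := by
  apply le_antisymm
  · have h1 : (Ev H ⊔ Ev K).Normal := inferInstance
    have hf : Function.Surjective (QuotientGroup.mk' (Ev H ⊔ Ev K)) :=
      QuotientGroup.mk'_surjective _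
    have h0 : Ev (H ⊔ K) ≤ (QuotientGroup.mk' (Ev H ⊔ Ev K)).ker := by
      rw [Ev_le_ker_iff, Subgroup.map_sup]
      have hn : (K.map (QuotientGroup.mk' (Ev H ⊔ Ev K))).Normal := Normal.map ‹_› _ hf
      apply Ev_sup_eq_bot
      · rw [← Ev_le_ker_iff, QuotientGroup.ker_mk']; exact le_sup_left
      · rw [← Ev_le_ker_iff, QuotientGroup.ker_mk']; exact le_sup_right
    rwa [QuotientGroup.ker_mk'] at h0
  · exact sup_le (Ev_mono le_sup_left) (Ev_mono le_sup_right)

theorem Od_sup [Finite G] (H K : Subgroup G) [H.Normal] [K.Normal] :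
    Od (H ⊔ K) = Od H ⊔ Od K := by
  apply le_antisymm
  · have h1 : (Od H ⊔ Od K).Normal := inferInstance
    have hf : Function.Surjective (QuotientGroup.mk' (Od H ⊔ Od K)) :=
      QuotientGroup.mk'_surjective _
    have h0 : Od (H ⊔ K) ≤ (QuotientGroup.mk' (Od H ⊔ Od K)).ker := by
      rw [Od_le_ker_iff, Subgroup.map_sup]
      have hn : (K.map (QuotientGroup.mk' (Od H ⊔ Od K))).Normal := Normal.map ‹_› _ hf
      apply Od_sup_eq_bot
      · rw [← Od_le_ker_iff, QuotientGroup.ker_mk']; exact le_sup_left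
      · rw [← Od_le_ker_iff, QuotientGroup.ker_mk']; exact le_sup_right
    rwa [QuotientGroup.ker_mk'] at h0
  · exact sup_le (Od_mono le_sup_left) (Od_mono le_sup_right)

theorem res_sup [Finite G] (k : ℕ) (H K : Subgroup G) [H.Normal] [K.Normal] :
    res k (H ⊔ K) = res k H ⊔ res k K := by
  induction k with
  | zero => exact Ev_sup H K
  | succ k ih => rw [res_succ, ih, Od_sup, Ev_sup, res_succ, res_succ]

/-- `res` of a join of finitely many normal subgroups. -/
theorem res_iSup_le [Finite G] {ι : Type} [Finite ι] (k : ℕ) (J : ι → Subgroup G)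
    (hJ : ∀ i, (J i).Normal) {N : Subgroup G} (h : ∀ i, res k (J i) ≤ N) :
    res k (⨆ i, J i) ≤ N := by
  classical
  have := Fintype.ofFinite ι
  have key : ∀ s : Finset ι, (⨆ i ∈ s, J i).Normal ∧ res k (⨆ i ∈ s, J i) ≤ N := by
    intro s
    induction s using Finset.induction_on with
    | empty => simp
    | insert a s ha ih =>
      rw [Finset.iSup_insert]
      have := ih.1
      have := hJ a
      exact ⟨inferInstance, by rw [res_sup]; exact sup_le (h a) ih.2⟩
  have := (key Finset.univ).2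
  simpa using this

/-- joining a normal subgroup. -/
theorem res_sup_le_sup [Finite G] (k : ℕ) (K N : Subgroup G) [N.Normal] :
    res k (K ⊔ N) ≤ res k K ⊔ N := by
  have h1 : res k (K ⊔ N) ≤ ((res k K).map (QuotientGroup.mk' N)).comap (QuotientGroup.mk' N) := by
    rw [← map_le_iff_le_comap, ← res_map, ← res_map, Subgroup.map_sup]
    have : N.map (QuotientGroup.mk' N) = ⊥ := by
      rw [Subgroup.map_eq_bot_iff, QuotientGroup.ker_mk']
    rw [this, sup_bot_eq]
  rwa [comap_map_eq, QuotientGroup.ker_mk'] at h1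

end sup

section termination

variable {G : Type} [Group G]

theorem eq_bot_of_Ev_Od [Finite G] [Group.IsSolvable G] {K : Subgroup G} (h1 : Ev K = K)
    (h2 : Od K = K) : K = ⊥ := by
  by_contra hK
  have : Nontrivial K := (nontrivial_iff_ne_bot K).2 hK
  have h3 : commutator K < ⊤ := Group.IsSolvable.commutator_lt_top_of_nontrivial K
  have h4 : res 1 (⊤ : Subgroup K) ≤ commutator K := by
    apply res_one_le_of_comm
    intro x _ y _
    exact commutator_mem_commutator (mem_top x) (mem_top y)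
  have h5 : (res 1 (⊤ : Subgroup K)).map K.subtype = K := by
    rw [res_top_map_subtype]
    show Ev (Od (Ev K)) = K
    rw [h1, h2, h1]
  have h6 : res 1 (⊤ : Subgroup K) = ⊤ := by
    apply map_injective K.subtype_injective
    rw [h5]; ext x; simp
  rw [h6] at h4
  exact absurd (lt_of_lt_of_le h3 h4) (lt_irrefl _)

theorem res_succ_lt [Finite G] [Group.IsSolvable G] {H : Subgroup G} {k : ℕ}
    (h : res k H ≠ ⊥) : res (k + 1) H < res k H := by
  refine lt_of_le_of_ne (res_succ_le k H) fun he => h ?_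
  apply eq_bot_of_Ev_Od (Ev_res k H)
  apply le_antisymm (Od_le _)
  conv_lhs => rw [← he]
  exact Ev_le _

theorem res_eq_bot_of_card_le [Finite G] [Group.IsSolvable G] {H : Subgroup G} {c : ℕ}
    (h : Nat.card H ≤ c) : res c H = ⊥ := by
  have key : ∀ k, res k H = ⊥ ∨ Nat.card (res k H) + k ≤ c := by
    intro k
    induction k with
    | zero => right; exact (card_le_of_le (res_le 0 H)).trans h
    | succ k ih =>
      by_cases hb : res k H = ⊥
      · left; exact le_bot_iff.1 ((res_succ_le k H).trans hb.le)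
      · right
        have h1 := ih.resolve_left hb
        have h2 : Nat.card (res (k + 1) H) < Nat.card (res k H) := by
          apply Set.ncard_lt_ncard (s := (res (k+1) H : Set G)) (t := (res k H : Set G))
          exact res_succ_lt hb
        omega
  rcases key c with h1 | h1
  · exact h1
  · have : 0 < Nat.card (res c H) := Nat.card_pos
    omega

theorem exists_res_eq_bot [Finite G] [Group.IsSolvable G] (H : Subgroup G) :
    ∃ n, res n H = ⊥ := ⟨_, res_eq_bot_of_card_le le_rfl⟩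

end termination

end Pool.Agent.Th
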