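import Mathlib
import Pool.Agent.Helper9.Th.Basic2

set_option autoImplicit false

namespace Pool.Agent.Th

open Subgroup

section

variable {G : Type} [Group G]

theorem isPGroup_cj {g : G} {B : Subgroup G} (h : IsPGroup 2 B) : IsPGroup 2 (cj g B) :=
  h.map _

theorem isPGroup_of_forall {B : Subgroup G} (h : ∀ x ∈ B, ∃ n : ℕ, x ^ (2 ^ n) = 1) :
    IsPGroup 2 B := by
  rintro ⟨x, hx⟩
  obtain ⟨n, hn⟩ := h x hx
  exact ⟨n, Subtype.ext (by rw [coe_pow, coe_one]; exact hn)⟩

theorem isPGroup_zpowers {x : G} (h : ∃ n : ℕ, x ^ (2 ^ n) = 1) : IsPGroup 2 (zpowers x) := by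
  obtain ⟨n, hn⟩ := h
  apply isPGroup_of_forall
  intro y hy
  obtain ⟨k, rfl⟩ := mem_zpowers_iff.1 hy
  exact ⟨n, by rw [← zpow_natCast, ← zpow_mul, mul_comm, zpow_mul, zpow_natCast, hn, one_zpow]⟩

/-- a 2-subgroup normalised by another one: the join is a 2-group -/
theorem isPGroup_sup {A B : Subgroup G} (hA : IsPGroup 2 A) (hB : IsPGroup 2 B)
    (h : ∀ a ∈ A, ∀ b ∈ B, a * b * a⁻¹ ∈ B) : IsPGroup 2 (A ⊔ B : Subgroup G) := by
  apply hA.to_sup_of_normal_right' hB
  intro a ha
  rw [mem_normalizer_iff]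
  intro b
  constructor
  · intro hb; exact h a ha b hb
  · intro hb
    have := h a⁻¹ (A.inv_mem ha) _ hb
    simpa [mul_assoc] using this

theorem SolIn.of_existsUnique {A : Subgroup G}
    (h : ∃! P : Sylow 2 G, A ≤ (P : Subgroup G)) : ∃ P : Sylow 2 G, SolIn A (P : Subgroup G) := by
  obtain ⟨P, hP, huniq⟩ := h
  refine ⟨P, P.2, hP, fun B hB hAB => ?_⟩
  obtain ⟨Q, hQ⟩ := hB.exists_le_sylow
  rw [← huniq Q (hAB.trans hQ)]
  exact hQ

variable {A P : Subgroup G}

theorem SolIn.sylow (h : SolIn A P) : ∃ S : Sylow 2 G, (S : Subgroup G) = P := by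
  obtain ⟨Q, hQ⟩ := h.isP.exists_le_sylow
  exact ⟨Q, le_antisymm (h.max _ Q.2 (h.le.trans hQ)) hQ⟩

theorem SolIn.isPA (h : SolIn A P) : IsPGroup 2 A := h.isP.to_le h.le

theorem SolIn.conj (h : SolIn A P) (g : G) : SolIn (cj g A) (cj g P) where
  isP := isPGroup_cj h.isP
  le := cj_mono h.le
  max B hB hA := by
    rw [le_cj_iff]
    apply h.max _ (isPGroup_cj hB)
    rw [le_cj_iff, inv_inv]
    exact hA

/-- elements conjugating `A` into `P` normalise `P`. -/
theorem SolIn.cj_eq [Finite G] (h : SolIn A P) {g : G} (hg : cj g A ≤ P) : cj g P = P := by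
  have h1 : cj g⁻¹ P ≤ P := h.max _ (isPGroup_cj h.isP) (cj_le_iff'.1 hg)
  have h2 := cj_eq_of_le h1
  conv_lhs => rw [← h2]
  rw [cj_cj, mul_inv_cancel, cj_one]

/-- 2-subgroups normalised by `A` lie in `P`. -/
theorem SolIn.le_of_normalized (h : SolIn A P) {B : Subgroup G} (hB : IsPGroup 2 B)
    (hn : ∀ a ∈ A, ∀ b ∈ B, a * b * a⁻¹ ∈ B) : B ≤ P :=
  le_sup_right.trans (h.max _ (isPGroup_sup h.isPA hB hn) le_sup_left)

theorem SolIn.le_of_normal (h : SolIn A P) {B : Subgroup G} (hB : IsPGroup 2 B)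
    [hn : B.Normal] : B ≤ P :=
  h.le_of_normalized hB fun a _ b hb => hn.conj_mem b hb a

/-- 2-elements normalising... : a subgroup `B` with `A ≤ B` a 2-group. -/
theorem SolIn.mono (h : SolIn A P) {A' : Subgroup G} (h1 : A ≤ A') (h2 : A' ≤ P) :
    SolIn A' P := ⟨h.isP, h2, fun B hB hA => h.max B hB (h1.trans hA)⟩

/-- restriction to a subgroup containing `A`. -/
theorem SolIn.subgroupOf (h : SolIn A P) {H : Subgroup G} (hA : A ≤ H) :
    SolIn (A.subgroupOf H) (P.subgroupOf H) where
  isP := h.isP.comap_of_injective H.subtype H.subtype_injective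
  le := comap_mono h.le
  max B hB hAB := by
    have h1 : A ≤ B.map H.subtype := by
      intro a ha
      exact ⟨⟨a, hA ha⟩, hAB (by rw [mem_subgroupOf]; exact ha), rfl⟩
    have h2 := h.max _ (hB.map H.subtype) h1
    intro b hb
    rw [mem_subgroupOf]
    exact h2 (mem_map_of_mem H.subtype hb)

theorem card_subgroupOf_le [Finite G] (A H : Subgroup G) :
    Nat.card (A.subgroupOf H) ≤ Nat.card A := by
  have : Function.Injective (fun x : A.subgroupOf H => (⟨x.1.1, by
    have := x.2; rwa [mem_subgroupOf] at this⟩ : A)) := by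
    rintro ⟨⟨x, hx⟩, hx'⟩ ⟨⟨y, hy⟩, hy'⟩ hxy
    simp only [Subtype.mk.injEq] at hxy
    subst hxy; rfl
  exact Nat.card_le_card_of_injective _ this

theorem card_map_le {G' : Type} [Group G'] [Finite G] (f : G →* G') (A : Subgroup G) :
    Nat.card (A.map f) ≤ Nat.card A := by
  apply Nat.card_le_card_of_surjective (fun x : A => (⟨f x, mem_map_of_mem f x.2⟩ : A.map f))
  rintro ⟨_, x, hx, rfl⟩
  exact ⟨⟨x, hx⟩, rfl⟩

/-- the restriction of `f` to a Sylow 2-subgroup of `f⁻¹(B')` is onto `B'` (a 2-group). -/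
theorem exists_two_lift {G' : Type} [Group G'] [Finite G] (f : G →* G')
    (hf : Function.Surjective f) {B' : Subgroup G'} (hB : IsPGroup 2 B') {A : Subgroup G}
    (hA : IsPGroup 2 A) (hAB : A.map f ≤ B') :
    ∃ B : Subgroup G, IsPGroup 2 B ∧ A ≤ B ∧ B.map f = B' := by
  have hA' : A ≤ B'.comap f := map_le_iff_le_comap.1 hAB
  obtain ⟨S, hS⟩ := (hA.comap_of_injective (B'.comap f).subtype
    (B'.comap f).subtype_injective).exists_le_sylow
  refine ⟨(S : Subgroup (B'.comap f)).map (B'.comap f).subtype, S.2.map _, ?_, ?_⟩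
  · intro a ha
    exact ⟨⟨a, hA' ha⟩, hS (by rw [mem_comap]; exact ha), rfl⟩
  · set g : (B'.comap f) →* B' := (f.comp (B'.comap f).subtype).codRestrict B' (fun x => x.2)
      with hg
    have hgs : Function.Surjective g := by
      rintro ⟨y, hy⟩
      obtain ⟨x, rfl⟩ := hf y
      exact ⟨⟨x, hy⟩, rfl⟩
    have h1 : ((S : Subgroup (B'.comap f)).map g) = ⊤ := by
      have h2 : ((S : Subgroup (B'.comap f)).map g).index ∣ (S : Subgroup (B'.comap f)).index :=
        index_map_dvd _ hgs
      have h3 : ¬ 2 ∣ (S : Subgroup (B'.comap f)).index := S.not_dvd_index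
      have hfG : Finite G' := Finite.of_surjective f hf
      have h4 := (hB.index ((S : Subgroup (B'.comap f)).map g))
      obtain ⟨n, hn⟩ := h4
      rw [← index_eq_one]
      rcases n with _ | n
      · simpa using hn
      · exfalso; apply h3
        refine dvd_trans ?_ h2
        rw [hn]; exact dvd_pow_self 2 (Nat.succ_ne_zero n)
    rw [map_map]
    have h5 : (f.comp (B'.comap f).subtype) = B'.subtype.comp g := rfl
    rw [h5, ← map_map, h1]
    ext x; simp

/-- images under surjective homomorphisms. -/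
theorem SolIn.map {G' : Type} [Group G'] [Finite G] (h : SolIn A P) (f : G →* G')
    (hf : Function.Surjective f) : SolIn (A.map f) (P.map f) where
  isP := h.isP.map f
  le := map_mono h.le
  max B' hB' hAB := by
    obtain ⟨B, hB, hAB2, rfl⟩ := exists_two_lift f hf hB' h.isPA hAB
    exact map_mono (h.max B hB hAB2)

/-- commuting with `A` implies normalising `P`. -/
theorem SolIn.cj_eq_of_comm [Finite G] (h : SolIn A P) {g : G}
    (hg : ∀ a ∈ A, g * a * g⁻¹ ∈ A) : cj g P = P :=
  h.cj_eq (cj_le_iff.2 fun a ha => h.le (hg a ha))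

/-- in an odd normal subgroup: elements commuting with `A` commute with `P`. -/
theorem SolIn.comm_of_odd [Finite G] (h : SolIn A P) {N : Subgroup G} [hN : N.Normal]
    (hodd : ¬ 2 ∣ Nat.card N) {g : G} (hg : g ∈ N) (hA : ∀ a ∈ A, g * a = a * g) :
    ∀ x ∈ P, g * x = x * g := by
  intro x hx
  have h1 : cj g P = P := h.cj_eq_of_comm fun a ha => by rw [hA a ha, mul_inv_cancel_right]; exact ha
  have h2 : g * x * g⁻¹ * x⁻¹ ∈ P := by
    apply P.mul_mem _ (P.inv_mem hx)
    rw [← h1]; exact conj_mem_cj hx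
  have h3 : g * x * g⁻¹ * x⁻¹ ∈ N := by
    have := N.mul_mem hg (hN.conj_mem _ (N.inv_mem hg) x)
    simpa [mul_assoc] using this
  have h4 := eq_one_of_two_odd (isTwo_of_isPGroup h.isP h2) (odd_of_card hodd h3)
  rw [mul_inv_eq_one, mul_inv_eq_iff_eq_mul] at h4
  exact h4

/-- the bound for trivial `A`. -/
theorem SolIn.res_one_of_bot [Finite G] (h : SolIn (⊥ : Subgroup G) P) :
    res 1 (⊤ : Subgroup G) = ⊥ := by
  apply res_one_eq_bot_of_le h.isP
  intro x _ hx
  exact h.max _ (isPGroup_zpowers hx) bot_le (mem_zpowers x)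

end

section Bd

theorem Bd_mono {m m' F F' : ℕ} (hm : m' ≤ m) (hF : F ≤ F') (h : Bd m F) : Bd m' F' := by
  intro G _ _ _ A P hA hc
  exact le_bot_iff.1 ((res_antitone _ hF).trans (h G A P hA (hc.trans hm)).le)

theorem Bd_one : Bd 1 1 := by
  intro G _ _ _ A P hA hc
  have : A = ⊥ := by
    rw [← card_eq_one]
    exact le_antisymm hc Nat.card_pos
  subst this
  exact hA.res_one_of_bot

/-- use of `Bd` for a subgroup `H` containing `A`. -/
theorem Bd.subgroup {m F : ℕ} (hB : Bd m F) {G : Type} [Group G] [Finite G] [Group.IsSolvable G]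
    {A P H : Subgroup G} (h : SolIn A P) (hA : A ≤ H) (hc : Nat.card A ≤ m) : res F H = ⊥ := by
  rw [← res_top_eq_bot_iff]
  exact hB H (A.subgroupOf H) (P.subgroupOf H) (h.subgroupOf hA)
    ((card_subgroupOf_le A H).trans hc)

/-- use of `Bd` for a homomorphism from a subgroup containing `A`, with small image of `A`. -/
theorem Bd.hom {m F : ℕ} (hB : Bd m F) {G G' : Type} [Group G] [Finite G] [Group.IsSolvable G]
    [Group G'] {A P : Subgroup G} (h : SolIn A P) (f : G →* G')
    (hc : Nat.card (A.map f) ≤ m) : res F (⊤ : Subgroup G) ≤ f.ker := by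
  rw [← MonoidHom.ker_rangeRestrict f, res_le_ker_iff,
    map_top_of_surjective _ f.rangeRestrict_surjective]
  have hs : Group.IsSolvable f.range := Group.isSolvable_of_surjective f.rangeRestrict_surjective
  have hfin : Finite f.range := Finite.of_surjective _ f.rangeRestrict_surjective
  apply hB f.range (A.map f.rangeRestrict) (P.map f.rangeRestrict)
    (h.map _ f.rangeRestrict_surjective)
  have h1 : (A.map f.rangeRestrict).map f.range.subtype = A.map f := by
    rw [map_map]; rfl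
  rw [← h1] at hc
  rwa [Nat.card_congr ((A.map f.rangeRestrict).equivMapOfInjective _
    f.range.subtype_injective).toEquiv]

end Bd

end Pool.Agent.Th
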