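import Mathlib
import Pool.Agent.Helper9.Th.Sol

set_option autoImplicit false

namespace Pool.Agent.Th

open Subgroup

/-- complements of central subgroups of coprime index. -/
theorem central_compl {K : Type} [Group K] [Finite K] (Z : Subgroup K)
    (hZ : ∀ z ∈ Z, ∀ x : K, z * x = x * z) (hcop : (Nat.card Z).Coprime Z.index) :
    ∃ U : Subgroup K, Nat.card U = Z.index ∧
      ∀ x : K, ∀ n : ℕ, x ^ n = 1 → n.Coprime (Nat.card Z) → x ∈ U := by
  have hn : Z.Normal := ⟨fun z hz g => by rw [← hZ z hz g, mul_inv_cancel_right]; exact hz⟩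
  obtain ⟨U, hU⟩ := exists_right_complement'_of_coprime hcop
  refine ⟨U, ?_, ?_⟩
  · exact hU.symm.index_eq_card.symm
  · intro x n hx hnc
    obtain ⟨⟨⟨z, hz⟩, ⟨u, hu⟩⟩, hzu⟩ := hU.surjective x
    simp only at hzu
    have hc : Commute z u := hZ z hz u
    rw [← hzu, hc.mul_pow] at hx
    have h1 : z ^ n = (u ^ n)⁻¹ := eq_inv_of_mul_eq_one_left hx
    have h2 : z ^ n ∈ Z ⊓ U := mem_inf.2 ⟨Z.pow_mem hz n, by rw [h1]; exact U.inv_mem (U.pow_mem hu n)⟩
    rw [hU.disjoint.eq_bot, mem_bot] at h2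
    have h3 : orderOf z ∣ n := orderOf_dvd_of_pow_eq_one h2
    have h4 : orderOf z ∣ Nat.card Z := by
      have := orderOf_dvd_natCard (⟨z, hz⟩ : Z)
      rwa [← Subgroup.orderOf_coe] at this
    have h5 := Nat.dvd_gcd h3 h4
    rw [hnc.gcd_eq_one, Nat.dvd_one, orderOf_eq_one_iff] at h5
    rw [← hzu, h5, one_mul]
    exact hu

section

variable {G : Type} [Group G]

theorem exists_max_normal [Finite G] (p : Subgroup G → Prop) (h0 : p ⊥)
    (hsup : ∀ H K : Subgroup G, H.Normal → K.Normal → p H → p K → p (H ⊔ K)) :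
    ∃ N : Subgroup G, N.Normal ∧ p N ∧ ∀ K : Subgroup G, K.Normal → p K → K ≤ N := by
  obtain ⟨N, hN, hmax⟩ := (Set.toFinite {N : Subgroup G | N.Normal ∧ p N}).exists_maximal
    ⟨⊥, inferInstance, h0⟩
  refine ⟨N, hN.1, hN.2, fun K hK hpK => ?_⟩
  have := hN.1
  have h1 := hmax (y := N ⊔ K) ⟨inferInstance, hsup N K hN.1 hK hN.2 hpK⟩ le_sup_left
  exact le_sup_right.trans h1

theorem exists_O2 [Finite G] : ∃ N : Subgroup G, N.Normal ∧ IsPGroup 2 N ∧
    ∀ K : Subgroup G, K.Normal → IsPGroup 2 K → K ≤ N :=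
  exists_max_normal (fun N => IsPGroup 2 N) IsPGroup.of_bot
    (fun _ _ _ _ h1 h2 => h1.to_sup_of_normal_right h2)

theorem exists_Oodd [Finite G] : ∃ N : Subgroup G, N.Normal ∧ ¬ 2 ∣ Nat.card N ∧
    ∀ K : Subgroup G, K.Normal → ¬ 2 ∣ Nat.card K → K ≤ N := by
  apply exists_max_normal (fun N => ¬ 2 ∣ Nat.card N)
  · simp
  · intro H K _ _ h1 h2
    rw [← Ev_eq_bot_iff] at *
    exact Ev_sup_eq_bot h1 h2

/-- elements of `H` have a power of 2-power exponent in `Od H`. -/
theorem pow_mem_Od [Finite G] {H : Subgroup G} {x : G} (hx : x ∈ H) : ∃ a, x ^ (2 ^ a) ∈ Od H := by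
  obtain ⟨a, b, hb, hab⟩ := Nat.exists_eq_two_pow_mul_odd (n := orderOf x) (orderOf_pos x).ne'
  obtain ⟨e, he⟩ := hb
  exact ⟨a, mem_Od (H.pow_mem hx _) ⟨e, by
    rw [← pow_mul, ← he, ← hab, pow_orderOf_eq_one]⟩⟩

theorem pow_mem_Ev [Finite G] {H : Subgroup G} {x : G} (hx : x ∈ H) :
    ∃ b, x ^ (2 * b + 1) ∈ Ev H := by
  obtain ⟨a, b, hb, hab⟩ := Nat.exists_eq_two_pow_mul_odd (n := orderOf x) (orderOf_pos x).ne'
  obtain ⟨e, he⟩ := hb
  exact ⟨e, mem_Ev (H.pow_mem hx _) ⟨a, by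
    rw [← pow_mul, ← he, mul_comm, ← hab, pow_orderOf_eq_one]⟩⟩

theorem isPGroup_of_Od_le [Finite G] {H N : Subgroup G} (hN : IsPGroup 2 N) (h : Od H ≤ N) :
    IsPGroup 2 H := by
  apply isPGroup_of_forall
  intro x hx
  obtain ⟨a, ha⟩ := pow_mem_Od hx
  obtain ⟨n, hn⟩ := isTwo_of_isPGroup hN (h ha)
  exact ⟨a + n, by rw [pow_add, pow_mul, hn]⟩

theorem isP2_index_Od [Finite G] (H : Subgroup G) : ∃ k, ((Od H).subgroupOf H).index = 2 ^ k := by
  have hn : ((Od H).subgroupOf H).Normal := by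
    constructor
    intro x hx g
    rw [mem_subgroupOf] at hx ⊢
    have : cj (g : G) (Od H) = Od H := by rw [cj_Od, cj_self_of_mem g.2]
    have h2 := conj_mem_cj (g := (g : G)) hx
    rw [this] at h2
    exact h2
  have h1 : IsPGroup 2 (H ⧸ (Od H).subgroupOf H) := by
    intro q
    induction q using QuotientGroup.induction_on with
    | H x =>
      obtain ⟨a, ha⟩ := pow_mem_Od x.2
      refine ⟨a, ?_⟩
      rw [← QuotientGroup.mk_pow, QuotientGroup.eq_one_iff, mem_subgroupOf]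
      exact ha
  obtain ⟨k, hk⟩ := IsPGroup.iff_card.1 h1
  exact ⟨k, by rw [index_eq_card]; exact hk⟩

theorem odd_index_Ev [Finite G] (H : Subgroup G) :
    Nat.Coprime ((Ev H).subgroupOf H).index 2 := by
  have hn : ((Ev H).subgroupOf H).Normal := by
    constructor
    intro x hx g
    rw [mem_subgroupOf] at hx ⊢
    have : cj (g : G) (Ev H) = Ev H := by rw [cj_Ev, cj_self_of_mem g.2]
    have h2 := conj_mem_cj (g := (g : G)) hx
    rw [this] at h2
    exact h2
  have h0 : ¬ 2 ∣ ((Ev H).subgroupOf H).index := by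
    intro hd
    rw [index_eq_card] at hd
    obtain ⟨q, hq⟩ := exists_prime_orderOf_dvd_card' (G := H ⧸ (Ev H).subgroupOf H) 2 hd
    revert hq
    induction q using QuotientGroup.induction_on with
    | H x =>
      intro hq
      obtain ⟨b, hb⟩ := pow_mem_Ev x.2
      have h1 : (QuotientGroup.mk x : H ⧸ (Ev H).subgroupOf H) ^ (2 * b + 1) = 1 := by
        rw [← QuotientGroup.mk_pow, QuotientGroup.eq_one_iff, mem_subgroupOf]
        exact hb
      have h2 := orderOf_dvd_of_pow_eq_one h1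
      rw [hq] at h2
      omega
  exact (Nat.Prime.coprime_iff_not_dvd Nat.prime_two).2 h0 |>.symm

/-- Hall-Higman 1.2.3 for 2-separable groups. -/
theorem hall_higman [Finite G] (hsep : ∃ n, res n (⊤ : Subgroup G) = ⊥)
    (hodd : ∀ N : Subgroup G, N.Normal → ¬ 2 ∣ Nat.card N → N = ⊥)
    {T : Subgroup G} [hTn : T.Normal] (hT2 : IsPGroup 2 T)
    (hT : ∀ N : Subgroup G, N.Normal → IsPGroup 2 N → N ≤ T) :
    centralizer (T : Set G) ≤ T := by
  by_contra hC
  set C := centralizer (T : Set G) with hCdef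
  have hCn : C.Normal := inferInstance
  have hOd : ∀ K : Subgroup G, K.Normal → K ≤ C → ¬ K ≤ T → ¬ Od K ≤ T := by
    intro K hK _ hKT hO
    exact hKT (hT K hK (isPGroup_of_Od_le hT2 hO))
  have hEv : ∀ K : Subgroup G, K.Normal → K ≤ C → ¬ K ≤ T → ¬ Ev K ≤ T := by
    intro K hK hKC hKT hE
    -- `Z = K ⊓ T` is central in `K` of odd index
    set Z := (K ⊓ T).subgroupOf K with hZ
    have hZc : ∀ z ∈ Z, ∀ x : K, z * x = x * z := by
      intro z hz x
      have h1 : (z : G) ∈ T := (mem_inf.1 (mem_subgroupOf.1 hz)).2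
      have h2 := mem_centralizer_iff.1 (hKC x.2) _ h1
      exact Subtype.ext h2
    have hZ2 : IsPGroup 2 Z := by
      apply isPGroup_of_forall
      intro x hx
      obtain ⟨n, hn⟩ := isTwo_of_isPGroup hT2 (mem_inf.1 (mem_subgroupOf.1 hx)).2
      exact ⟨n, Subtype.ext (by simpa using hn)⟩
    obtain ⟨n, hn⟩ := IsPGroup.iff_card.1 hZ2
    have hZi : Nat.Coprime Z.index 2 := by
      have h1 : (Ev K).subgroupOf K ≤ Z := by
        intro x hx
        rw [mem_subgroupOf] at hx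
        exact mem_subgroupOf.2 (mem_inf.2 ⟨x.2, hE hx⟩)
      exact Nat.Coprime.coprime_dvd_left (index_dvd_of_le h1) (odd_index_Ev K)
    have hcop : (Nat.card Z).Coprime Z.index := by
      rw [hn]; exact Nat.Coprime.pow_left n hZi.symm
    obtain ⟨U, hU1, hU2⟩ := central_compl Z hZc hcop
    have hOdU : Od K ≤ U.map K.subtype := by
      rw [Od_le_iff]
      rintro x hx ⟨e, he⟩
      refine ⟨⟨x, hx⟩, hU2 _ (2 * e + 1) (Subtype.ext (by simpa using he)) ?_, rfl⟩
      rw [hn]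
      exact Nat.Coprime.pow_right n (Nat.coprime_two_right.2 ⟨e, rfl⟩)
    have hOdodd : ¬ 2 ∣ Nat.card (Od K) := by
      intro h2
      have h3 : Nat.card (Od K) ∣ Nat.card (U.map K.subtype) := card_dvd_of_le hOdU
      have h4 : Nat.card (U.map K.subtype) = Nat.card U :=
        (Nat.card_congr (U.equivMapOfInjective _ K.subtype_injective).toEquiv).symm
      rw [h4, hU1] at h3
      have h5 := h2.trans h3
      have h6 := Nat.Coprime.eq_one_of_dvd hZi.symm h5
      omega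
    have hOdbot := hodd _ (Od_normal K) hOdodd
    exact hKT (hT K hK (Od_eq_bot_iff.1 hOdbot))
  have key : ∀ n, ¬ res n C ≤ T := by
    intro n
    induction n with
    | zero => exact hEv C hCn le_rfl hC
    | succ n ih =>
      have h1 := hOd _ (res_normal n C) (res_le n C) ih
      exact hEv _ (Od_normal _) ((Od_le _).trans (res_le n C)) h1
  obtain ⟨n, hn⟩ := hsep
  exact key n ((res_mono n le_top).trans (hn.le.trans bot_le))

end

end Pool.Agent.Th
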