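import Mathlib
import Pool.Agent.Helper9.Th.Sol

set_option autoImplicit false

namespace Pool.Agent.Th

open Subgroup

section

variable {G : Type} [Group G]

/-- conjugation by `x` on a section. -/
noncomputable def secMap (T T' : Subgroup G) (x : G) (hT : ∀ t ∈ T, x * t * x⁻¹ ∈ T)
    (hT' : ∀ t ∈ T', x * t * x⁻¹ ∈ T') [(T'.subgroupOf T).Normal] :
    (T ⧸ T'.subgroupOf T) →* (T ⧸ T'.subgroupOf T) :=
  QuotientGroup.map (T'.subgroupOf T) (T'.subgroupOf T)
        { toFun := fun t => ⟨x * t * x⁻¹, hT t t.2⟩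
          map_one' := by ext; simp
          map_mul' := fun a b => by ext; simp [mul_assoc] }
        (fun t ht => hT' _ ht)

theorem secMap_mk (T T' : Subgroup G) (x : G) (hT : ∀ t ∈ T, x * t * x⁻¹ ∈ T)
    (hT' : ∀ t ∈ T', x * t * x⁻¹ ∈ T') [(T'.subgroupOf T).Normal] (t : T) :
    secMap T T' x hT hT' (QuotientGroup.mk t) =
      QuotientGroup.mk (⟨x * t * x⁻¹, hT t t.2⟩ : T) := rfl

theorem secMap_mul (T T' : Subgroup G) (x y : G) (hT : ∀ t ∈ T, x * t * x⁻¹ ∈ T)
    (hT' : ∀ t ∈ T', x * t * x⁻¹ ∈ T') (hTy : ∀ t ∈ T, y * t * y⁻¹ ∈ T)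
    (hTy' : ∀ t ∈ T', y * t * y⁻¹ ∈ T') (hTz : ∀ t ∈ T, (x * y) * t * (x * y)⁻¹ ∈ T)
    (hTz' : ∀ t ∈ T', (x * y) * t * (x * y)⁻¹ ∈ T')
    [(T'.subgroupOf T).Normal] (q : T ⧸ T'.subgroupOf T) :
    secMap T T' (x * y) hTz hTz' q =
      secMap T T' x hT hT' (secMap T T' y hTy hTy' q) := by
  induction q using QuotientGroup.induction_on with
  | H t =>
    rw [secMap_mk, secMap_mk, secMap_mk]
    congr 1
    ext; simp [mul_assoc]

theorem secMap_one (T T' : Subgroup G) (x : G) (hx : x = 1) (hT : ∀ t ∈ T, x * t * x⁻¹ ∈ T)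
    (hT' : ∀ t ∈ T', x * t * x⁻¹ ∈ T')
    [(T'.subgroupOf T).Normal] (q : T ⧸ T'.subgroupOf T) :
    secMap T T' x hT hT' q = q := by
  induction q using QuotientGroup.induction_on with
  | H t =>
    rw [secMap_mk]
    congr 1
    ext; simp [hx]

/-- conjugation action of `R` on a section `T / T'` normalised by `R`. -/
noncomputable def secAut (R T T' : Subgroup G) (hT : ∀ x ∈ R, ∀ t ∈ T, x * t * x⁻¹ ∈ T)
    (hT' : ∀ x ∈ R, ∀ t ∈ T', x * t * x⁻¹ ∈ T') [(T'.subgroupOf T).Normal] :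
    R →* MulAut (T ⧸ T'.subgroupOf T) where
  toFun x :=
    { toFun := secMap T T' x (hT x x.2) (hT' x x.2)
      invFun := secMap T T' (x : G)⁻¹ (hT _ (R.inv_mem x.2)) (hT' _ (R.inv_mem x.2))
      left_inv := by
        intro q
        have h := secMap_mul T T' (x : G)⁻¹ x (hT _ (R.inv_mem x.2)) (hT' _ (R.inv_mem x.2))
          (hT x x.2) (hT' x x.2) (by simp) (by simp) q
        rw [← h]
        exact secMap_one T T' _ (by simp) _ _ q
      right_inv := by
        intro q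
        have h := secMap_mul T T' x (x : G)⁻¹ (hT x x.2) (hT' x x.2)
          (hT _ (R.inv_mem x.2)) (hT' _ (R.inv_mem x.2)) (by simp) (by simp) q
        rw [← h]
        exact secMap_one T T' _ (by simp) _ _ q
      map_mul' := fun a b => map_mul _ a b }
  map_one' := by
    apply MulEquiv.ext
    intro q
    exact secMap_one T T' ((1 : R) : G) (by simp) (hT _ (1 : R).2) (hT' _ (1 : R).2) q
  map_mul' x y := by
    apply MulEquiv.ext
    intro q
    exact secMap_mul T T' x y (hT x x.2) (hT' x x.2) (hT y y.2) (hT' y y.2)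
      (hT _ (x * y).2) (hT' _ (x * y).2) q

theorem secAut_mk (R T T' : Subgroup G) (hT : ∀ x ∈ R, ∀ t ∈ T, x * t * x⁻¹ ∈ T)
    (hT' : ∀ x ∈ R, ∀ t ∈ T', x * t * x⁻¹ ∈ T') [(T'.subgroupOf T).Normal] (x : R) (t : T) :
    secAut R T T' hT hT' x (QuotientGroup.mk t) =
      QuotientGroup.mk (⟨x * t * (x : G)⁻¹, hT x x.2 t t.2⟩ : T) := rfl

end

/-- internal form of `BC`. -/
theorem BC.internal (hBC : BC) (c : ℕ) : ∃ g : ℕ, ∀ (G : Type) [Group G] [Finite G]
    [Group.IsSolvable G] (R T T' : Subgroup G) (S : Set G),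
    T' ≤ T → (∀ x ∈ R, ∀ t ∈ T, x * t * x⁻¹ ∈ T) → (∀ x ∈ R, ∀ t ∈ T', x * t * x⁻¹ ∈ T') →
    (∀ s ∈ T, ∀ t ∈ T, s * t * s⁻¹ * t⁻¹ ∈ T') → R = closure S →
    (∀ s ∈ S, ∃ L : Subgroup G, L ≤ T ∧ L.relIndex T ≤ c ∧
      ∀ t ∈ L, s * t * s⁻¹ * t⁻¹ ∈ T') →
    ∀ x ∈ res g R, ∀ t ∈ T, x * t * x⁻¹ * t⁻¹ ∈ T' := by
  obtain ⟨g, hg⟩ := hBC c
  refine ⟨g, ?_⟩
  intro G _ _ _ R T T' S hT'T hT hT' hcomm hRS hS x hx t ht
  have hn : (T'.subgroupOf T).Normal := by
    constructor
    intro n hn k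
    rw [mem_subgroupOf] at hn ⊢
    have := T'.mul_mem (hcomm k k.2 n n.2) hn
    simpa using this
  let cg : CommGroup (T ⧸ T'.subgroupOf T) :=
    { (inferInstance : Group (T ⧸ T'.subgroupOf T)) with
      mul_comm := by
        intro a b
        induction a using QuotientGroup.induction_on with
        | H a =>
          induction b using QuotientGroup.induction_on with
          | H b =>
            rw [← QuotientGroup.mk_mul, ← QuotientGroup.mk_mul, QuotientGroup.eq, mem_subgroupOf]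
            have := hcomm _ (T.inv_mem b.2) _ (T.inv_mem a.2)
            simpa [mul_assoc] using this }
  let φ : R →* MulAut (T ⧸ T'.subgroupOf T) := secAut R T T' hT hT'
  let S' : Set R := {s | (s : G) ∈ S}
  have hSR : S ⊆ (R : Set G) := by rw [hRS]; exact subset_closure
  have hS' : closure S' = ⊤ := by
    apply map_injective R.subtype_injective
    rw [MonoidHom.map_closure]
    have : (R.subtype : R → G) '' S' = S := by
      ext y
      constructor
      · rintro ⟨z, hz, rfl⟩; exact hz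
      · intro hy; exact ⟨⟨y, hSR hy⟩, hy, rfl⟩
    rw [this, ← hRS]
    ext y; simp
  have key := hg R (T ⧸ T'.subgroupOf T) φ S' hS' ?_
  · have hx' : (⟨x, res_le g R hx⟩ : R) ∈ res g (⊤ : Subgroup R) := by
      rw [← res_top_map_subtype R g] at hx
      obtain ⟨y, hy, rfl⟩ := hx
      exact hy
    have h1 := key _ hx'
    have h2 := congrArg (fun e => e (QuotientGroup.mk (⟨t, ht⟩ : T))) h1
    simp only [MulAut.one_apply] at h2
    have h3 : (QuotientGroup.mk (⟨x * t * x⁻¹, hT x (res_le g R hx) t ht⟩ : T) :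
        T ⧸ T'.subgroupOf T) = QuotientGroup.mk (⟨t, ht⟩ : T) := h2
    have h4 := h3.symm
    rw [QuotientGroup.eq, mem_subgroupOf] at h4
    have h5 : t⁻¹ * (x * t * x⁻¹) ∈ T' := h4
    have h6 := T'.mul_mem (hcomm t ht _ (hT'T h5)) h5
    have h7 : t * (t⁻¹ * (x * t * x⁻¹)) * t⁻¹ ∈ T' := by simpa [mul_assoc] using h6
    simpa [mul_assoc] using h7
  · intro s hs
    obtain ⟨L, hLT, hLc, hL⟩ := hS s hs
    -- the homomorphism `t ↦ φ s t * t⁻¹`
    let ψ : (T ⧸ T'.subgroupOf T) →* (T ⧸ T'.subgroupOf T) :=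
      { toFun := fun t => φ s t * t⁻¹
        map_one' := by simp
        map_mul' := fun a b => by
          rw [map_mul, mul_inv]
          exact mul_mul_mul_comm _ _ _ _ }
    have hr : (Set.range fun t : T ⧸ T'.subgroupOf T => φ s t * t⁻¹) = (ψ.range : Set _) := by
      ext y; rfl
    rw [hr]
    show Nat.card ψ.range ≤ c
    rw [← index_ker]
    refine le_trans ?_ hLc
    -- the kernel pulled back to `T` contains `L`
    have h1 : ψ.ker.index = (ψ.ker.comap (QuotientGroup.mk' (T'.subgroupOf T))).index :=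
      (index_comap_of_surjective _ (QuotientGroup.mk'_surjective _)).symm
    rw [h1]
    have h2 : L.subgroupOf T ≤ ψ.ker.comap (QuotientGroup.mk' (T'.subgroupOf T)) := by
      intro t ht
      rw [mem_subgroupOf] at ht
      rw [mem_comap, MonoidHom.mem_ker]
      show φ s (QuotientGroup.mk t) * (QuotientGroup.mk t)⁻¹ = 1
      have : φ s (QuotientGroup.mk t) =
        QuotientGroup.mk (⟨s * t * (s : G)⁻¹, hT s s.2 t t.2⟩ : T) := rfl
      rw [this, ← QuotientGroup.mk_inv, ← QuotientGroup.mk_mul, QuotientGroup.eq_one_iff,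
        mem_subgroupOf]
      exact hL t ht
    exact Nat.le_of_dvd (Nat.pos_of_ne_zero (FiniteIndex.index_ne_zero)) (index_dvd_of_le h2)

end Pool.Agent.Th
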