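import Mathlib
import Pool.Agent.Helper9.Th.BCint

set_option autoImplicit false

namespace Pool.Agent.Th

open Subgroup

/-- version of `res_one_le_of_comm` with `N` normalised by `H`. -/
theorem res_one_le_of_comm' {G : Type} [Group G] [Finite G] {H N : Subgroup G}
    (hN : ∀ x ∈ H, ∀ n ∈ N, x * n * x⁻¹ ∈ N)
    (h : ∀ x ∈ H, ∀ y ∈ H, x * y * x⁻¹ * y⁻¹ ∈ N) : res 1 H ≤ N := by
  have hn : (N.subgroupOf H).Normal := by
    constructor
    intro n hn g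
    rw [mem_subgroupOf] at hn ⊢
    exact hN g g.2 n hn
  have h1 : res 1 (⊤ : Subgroup H) ≤ N.subgroupOf H := by
    apply res_one_le_of_comm
    intro x _ y _
    exact h x x.2 y y.2
  have h2 := map_mono (f := H.subtype) h1
  rw [res_top_map_subtype] at h2
  refine h2.trans ?_
  rintro _ ⟨x, hx, rfl⟩
  exact hx

theorem mem_sup_normal {G : Type} [Group G] {K Q : Subgroup G} [K.Normal] {x : G}
    (hx : x ∈ K ⊔ Q) : ∃ k ∈ K, ∃ q ∈ Q, x = k * q := by
  rw [← SetLike.mem_coe, normal_mul] at hx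
  obtain ⟨k, hk, q, hq, rfl⟩ := hx
  exact ⟨k, hk, q, hq, rfl⟩

section step

variable {G : Type} [Group G] [Finite G]

/-- pigeonhole step: some `b ∈ A` centralises a subgroup of small index of `K` modulo
`K ⊓ Q`. -/
theorem exists_small {A K Q : Subgroup G} [hKn : K.Normal]
    (hcomm : ∀ s ∈ K, ∀ t ∈ K, s * t * s⁻¹ * t⁻¹ ∈ Q)
    (hA : ∀ k ∈ K, A ⊓ cj k Q ≠ ⊥) :
    ∃ k₀ ∈ K, ∃ b ∈ A, b ≠ 1 ∧ b ∈ cj k₀ Q ∧
      (∀ k ∈ K, ∀ n ∈ K ⊓ cj k₀ Q, k * n * k⁻¹ ∈ K ⊓ cj k₀ Q) ∧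
      (∀ s ∈ K, ∀ t ∈ K, s * t * s⁻¹ * t⁻¹ ∈ K ⊓ cj k₀ Q) ∧ ∃ L : Subgroup G, L ≤ K ∧
      L.relIndex K ≤ Nat.card A ∧ ∀ t ∈ L, b * t * b⁻¹ * t⁻¹ ∈ K ⊓ cj k₀ Q := by
  classical
  have hF : ∀ k : K, ∃ b : A, (b : G) ≠ 1 ∧ (b : G) ∈ cj (k : G) Q := by
    intro k
    obtain ⟨⟨b, hb⟩, hb1⟩ := Subgroup.ne_bot_iff_exists_ne_one.1 (hA k k.2)
    exact ⟨⟨b, (mem_inf.1 hb).1⟩, fun h => hb1 (Subtype.ext h), (mem_inf.1 hb).2⟩
  choose F hF1 hF2 using hF
  have := Fintype.ofFinite K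
  have := Fintype.ofFinite A
  -- a large fibre
  obtain ⟨b, hb⟩ : ∃ b : A, Nat.card K ≤ Nat.card A * Nat.card {k : K // F k = b} := by
    by_contra hcon
    push Not at hcon
    have h1 : ∑ b : A, Nat.card {k : K // F k = b} = Nat.card K := by
      rw [Nat.card_congr (Equiv.sigmaFiberEquiv F).symm, Nat.card_sigma]
    have h2 : ∑ b : A, Nat.card A * Nat.card {k : K // F k = b} < ∑ b : A, Nat.card K :=
      Finset.sum_lt_sum_of_nonempty ⟨1, Finset.mem_univ _⟩ fun b _ => hcon b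
    rw [← Finset.mul_sum, h1, Finset.sum_const, Finset.card_univ, ← Nat.card_eq_fintype_card,
      smul_eq_mul] at h2
    exact lt_irrefl _ h2
  have hne : Nonempty {k : K // F k = b} := by
    by_contra hcon
    have hemp : IsEmpty {k : K // F k = b} := not_nonempty_iff.1 hcon
    have h0 : Nat.card {k : K // F k = b} = 0 := Nat.card_of_isEmpty
    rw [h0, mul_zero] at hb
    have : 0 < Nat.card K := Nat.card_pos
    omega
  obtain ⟨⟨k₀, hk₀⟩⟩ := hne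
  have hb0 : (b : G) ∈ cj (k₀ : G) Q := by rw [← hk₀]; exact hF2 k₀
  have hcomm' : ∀ s ∈ K, ∀ t ∈ K, s * t * s⁻¹ * t⁻¹ ∈ K ⊓ cj (k₀ : G) Q := by
    intro s hs t ht
    refine mem_inf.2 ⟨?_, ?_⟩
    · exact K.mul_mem (K.mul_mem (K.mul_mem hs ht) (K.inv_mem hs)) (K.inv_mem ht)
    · rw [mem_cj]
      have := hcomm _ (hKn.conj_mem s hs (k₀ : G)⁻¹) _ (hKn.conj_mem t ht (k₀ : G)⁻¹)
      simpa [mul_assoc] using this
  have hT'K : ∀ k ∈ K, ∀ n ∈ K ⊓ cj (k₀ : G) Q, k * n * k⁻¹ ∈ K ⊓ cj (k₀ : G) Q := by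
    intro k hk n hn
    have := (K ⊓ cj (k₀ : G) Q).mul_mem (hcomm' k hk n (mem_inf.1 hn).1) hn
    simpa [mul_assoc] using this
  refine ⟨k₀, k₀.2, b, b.2, ?_, hb0, hT'K, hcomm', ?_⟩
  · rw [← hk₀]; exact hF1 k₀
  let L : Subgroup G :=
    { carrier := {t | t ∈ K ∧ (b : G) * t * (b : G)⁻¹ * t⁻¹ ∈ K ⊓ cj (k₀ : G) Q}
      one_mem' := ⟨K.one_mem, by simp⟩
      mul_mem' := by
        rintro t u ⟨ht, ht'⟩ ⟨hu, hu'⟩
        refine ⟨K.mul_mem ht hu, ?_⟩
        have := (K ⊓ cj (k₀ : G) Q).mul_mem ht' (hT'K t ht _ hu')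
        simpa [mul_assoc] using this
      inv_mem' := by
        rintro t ⟨ht, ht'⟩
        refine ⟨K.inv_mem ht, ?_⟩
        have := hT'K _ (K.inv_mem ht) _ ((K ⊓ cj (k₀ : G) Q).inv_mem ht')
        simpa [mul_assoc] using this }
  have hLK : L ≤ K := fun t ht => ht.1
  refine ⟨L, hLK, ?_, fun t ht => ht.2⟩
  have h3 : Nat.card {k : K // F k = b} ≤ Nat.card L := by
    have hmem : ∀ k : K, F k = b → (k : G) * (k₀ : G)⁻¹ ∈ L := by
      intro k hk
      have htK : (k : G) * (k₀ : G)⁻¹ ∈ K := K.mul_mem k.2 (K.inv_mem k₀.2)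
      have hbk : (b : G) ∈ cj (k : G) Q := by rw [← hk]; exact hF2 k
      refine ⟨htK, ?_⟩
      set t := (k : G) * (k₀ : G)⁻¹ with ht
      have h4 : (k : G) = t * k₀ := by rw [ht]; simp
      rw [h4, ← cj_cj, mem_cj] at hbk
      have h5 : t⁻¹ * b * t * (b : G)⁻¹ ∈ K ⊓ cj (k₀ : G) Q := by
        refine mem_inf.2 ⟨?_, ?_⟩
        · have := K.mul_mem (K.inv_mem htK) (hKn.conj_mem t htK b)
          simpa [mul_assoc] using this
        · exact (cj (k₀ : G) Q).mul_mem hbk ((cj (k₀ : G) Q).inv_mem hb0)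
      have h6 := hT'K t htK _ h5
      simpa [mul_assoc] using h6
    apply Nat.card_le_card_of_injective
      (fun k : {k : K // F k = b} => (⟨(k.1 : G) * (k₀ : G)⁻¹, hmem k.1 k.2⟩ : L))
    rintro ⟨⟨x, hx⟩, hx'⟩ ⟨⟨y, hy⟩, hy'⟩ hxy
    simp only [Subtype.mk.injEq, mul_left_inj] at hxy
    subst hxy
    rfl
  have h4 : Nat.card L * L.relIndex K = Nat.card K := by
    rw [← relIndex_bot_left, ← relIndex_bot_left K]
    exact relIndex_mul_relIndex _ _ _ bot_le hLK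
  have h5 : Nat.card L * L.relIndex K ≤ Nat.card L * Nat.card A := by
    rw [h4]
    calc Nat.card K ≤ Nat.card A * Nat.card {k : K // F k = b} := hb
      _ ≤ Nat.card A * Nat.card L := Nat.mul_le_mul_left _ h3
      _ = _ := mul_comm _ _
  exact Nat.le_of_mul_le_mul_left h5 Nat.card_pos

omit [Finite G] in
/-- the normal subgroup `M` lies in `core`. -/
theorem le_normalCore {M H : Subgroup G} [hM : M.Normal] (h : M ≤ H) : M ≤ H.normalCore := by
  intro x hx g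
  exact h (hM.conj_mem x hx g)

theorem LemW.gp (hW : LemW) {m F : ℕ} (hB : Bd (m - 1) F) [Group.IsSolvable G]
    {A P M Q : Subgroup G} (hA : SolIn A P) (hc : Nat.card A ≤ m) [hM : M.Normal] {σ : G}
    (hσ : σ ∈ A) (hσ1 : σ ≠ 1) (h : ∀ x ∈ M, σ ∈ cj x Q) : res (m * (F + 1)) M ≤ Q := by
  let C : Subgroup G :=
    { carrier := {c | c ∈ M ∧ ∀ x ∈ M, c ∈ cj x Q}
      one_mem' := ⟨M.one_mem, fun x _ => (cj x Q).one_mem⟩
      mul_mem' := fun {a b} ha hb =>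
        ⟨M.mul_mem ha.1 hb.1, fun x hx => (cj x Q).mul_mem (ha.2 x hx) (hb.2 x hx)⟩
      inv_mem' := fun {a} ha => ⟨M.inv_mem ha.1, fun x hx => (cj x Q).inv_mem (ha.2 x hx)⟩ }
  have hconj : ∀ y ∈ M, ∀ z, (∀ x ∈ M, z ∈ cj x Q) → ∀ x ∈ M, y * z * y⁻¹ ∈ cj x Q := by
    intro y hy z hz x hx
    have := hz _ (M.mul_mem (M.inv_mem hy) hx)
    rw [mem_cj] at this ⊢
    simpa [mul_assoc] using this
  have hres := hW m F hB G A P M C σ hA hc hM (fun c hc => hc.1) ?_ hσ hσ1 ?_ ?_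
  · refine hres.trans ?_
    intro c hc
    have := hc.2 1 M.one_mem
    rwa [cj_one] at this
  · intro x hx c hc
    exact ⟨M.mul_mem (M.mul_mem hx hc.1) (M.inv_mem hx), hconj x hx c hc.2⟩
  · intro c hc
    refine ⟨hM.conj_mem c hc.1 σ, fun x hx => ?_⟩
    exact (cj x Q).mul_mem ((cj x Q).mul_mem (h x hx) (hc.2 x hx)) ((cj x Q).inv_mem (h x hx))
  · intro x hx
    refine ⟨M.mul_mem (hM.conj_mem x hx σ) (M.inv_mem hx), fun y hy => ?_⟩
    have h1 := hconj x hx σ⁻¹ (fun z hz => (cj z Q).inv_mem (h z hz)) y hy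
    have := (cj y Q).mul_mem (h y hy) h1
    simpa [mul_assoc] using this

/-- the single step. -/
theorem single_step (hW : LemW) {m F g : ℕ} (hB : Bd (m - 1) F)
    (hg : ∀ (G : Type) [Group G] [Finite G]
    [Group.IsSolvable G] (R T T' : Subgroup G) (S : Set G),
    T' ≤ T → (∀ x ∈ R, ∀ t ∈ T, x * t * x⁻¹ ∈ T) → (∀ x ∈ R, ∀ t ∈ T', x * t * x⁻¹ ∈ T') →
    (∀ s ∈ T, ∀ t ∈ T, s * t * s⁻¹ * t⁻¹ ∈ T') → R = closure S →
    (∀ s ∈ S, ∃ L : Subgroup G, L ≤ T ∧ L.relIndex T ≤ m ∧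
      ∀ t ∈ L, s * t * s⁻¹ * t⁻¹ ∈ T') →
    ∀ x ∈ res g R, ∀ t ∈ T, x * t * x⁻¹ * t⁻¹ ∈ T')
    [Group.IsSolvable G]
    {A P K Q : Subgroup G} (hA : SolIn A P) (hc : Nat.card A ≤ m) [hK : K.Normal]
    (hcomm : ∀ s ∈ K, ∀ t ∈ K, s * t * s⁻¹ * t⁻¹ ∈ Q)
    (hAk : ∀ k ∈ K, A ⊓ cj k Q ≠ ⊥) :
    res (m * (F + 1) + (g + 1)) (K ⊔ Q).normalCore ≤ Q := by
  obtain ⟨k₀, hk₀, b, hb, hb1, hbQ, hT'K, hcomm', L, hLK, hLc, hL⟩ := exists_small hcomm hAk
  set Q₀ := cj k₀ Q with hQ₀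
  set X := (K ⊔ Q).normalCore with hX
  have hXn : X.Normal := normalCore_normal _
  have hKX : K ≤ X := le_normalCore le_sup_left
  have hXQ : X ≤ K ⊔ Q₀ := by
    have h1 : X ≤ K ⊔ Q := normalCore_le _
    have h2 := le_cj_of_normal h1 k₀
    rwa [cj_sup, cj_normal] at h2
  set S := X ⊓ Q₀ with hS
  have hXS : ∀ x ∈ X, ∃ k ∈ K, ∃ s ∈ S, x = k * s := by
    intro x hx
    obtain ⟨k, hk, q, hq, rfl⟩ := mem_sup_normal (hXQ hx)
    refine ⟨k, hk, q, mem_inf.2 ⟨?_, hq⟩, rfl⟩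
    have := X.mul_mem (X.inv_mem (hKX hk)) hx
    simpa using this
  set W := S ⊔ zpowers b with hWdef
  have hbW : b ∈ W := (le_sup_right : zpowers b ≤ W) (mem_zpowers b)
  have hSW : S ≤ W := le_sup_left
  have hWQ : W ≤ Q₀ := sup_le inf_le_right (zpowers_le.2 hbQ)
  set R := closure {y | ∃ x ∈ W, y = x * b * x⁻¹} with hR
  have hRW : R ≤ W := by
    rw [hR, closure_le]
    rintro _ ⟨x, hx, rfl⟩
    exact W.mul_mem (W.mul_mem hx hbW) (W.inv_mem hx)
  have hRconj : ∀ w ∈ W, ∀ r ∈ R, w * r * w⁻¹ ∈ R := by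
    intro w hw
    rw [← cj_le_iff]
    show (Subgroup.closure _).map _ ≤ R
    rw [MonoidHom.map_closure, closure_le]
    rintro _ ⟨_, ⟨x, hx, rfl⟩, rfl⟩
    exact subset_closure ⟨w * x, W.mul_mem hw hx, by simp [mul_assoc]⟩
  have hbR : b ∈ R := subset_closure ⟨1, W.one_mem, by simp⟩
  set S₁ := R ⊓ S with hS₁
  have hSconj : ∀ w ∈ W, ∀ s ∈ S, w * s * w⁻¹ ∈ S := by
    intro w hw s hs
    refine mem_inf.2 ⟨hXn.conj_mem s (mem_inf.1 hs).1 w, ?_⟩
    exact Q₀.mul_mem (Q₀.mul_mem (hWQ hw) (mem_inf.1 hs).2) (Q₀.inv_mem (hWQ hw))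
  have hS₁conj : ∀ w ∈ W, ∀ s ∈ S₁, w * s * w⁻¹ ∈ S₁ := fun w hw s hs =>
    mem_inf.2 ⟨hRconj w hw s (mem_inf.1 hs).1, hSconj w hw s (mem_inf.1 hs).2⟩
  have hbS : ∀ s ∈ S, b * s * b⁻¹ * s⁻¹ ∈ S₁ := by
    intro s hs
    refine mem_inf.2 ⟨?_, S.mul_mem (hSconj b hbW s hs) (S.inv_mem hs)⟩
    have := R.mul_mem hbR (hRconj s (hSW hs) _ (R.inv_mem hbR))
    simpa [mul_assoc] using this
  set C := K ⊔ S₁ with hC
  have hKC : K ≤ C := le_sup_left
  have hS₁C : S₁ ≤ C := le_sup_right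
  have hCX : C ≤ X := sup_le hKX (inf_le_right.trans inf_le_left)
  have hCW : ∀ w ∈ W, ∀ c ∈ C, w * c * w⁻¹ ∈ C := by
    intro w hw
    rw [← cj_le_iff, hC, cj_sup, cj_normal]
    exact sup_le_sup_left (cj_le_iff.2 (hS₁conj w hw)) _
  -- Lemma W
  have h1 : res (m * (F + 1)) X ≤ C := by
    apply hW m F hB G A P X C b hA hc hXn hCX ?_ hb hb1 (hCW b hbW)
    · intro x hx
      obtain ⟨k, hk, s, hs, rfl⟩ := hXS x hx
      have h2 : b * (k * s) * b⁻¹ * (k * s)⁻¹ = (b * k * b⁻¹) * (b * s * b⁻¹ * s⁻¹) * k⁻¹ := by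
        group
      rw [h2]
      exact C.mul_mem (C.mul_mem (hKC (hK.conj_mem k hk b)) (hS₁C (hbS s hs)))
        (C.inv_mem (hKC hk))
    · intro x hx c hc'
      obtain ⟨k, hk, s, hs, rfl⟩ := hXS x hx
      have h2 : (k * s) * c * (k * s)⁻¹ = k * (s * c * s⁻¹) * k⁻¹ := by group
      rw [h2]
      exact C.mul_mem (C.mul_mem (hKC hk) (hCW s (hSW hs) c hc')) (C.inv_mem (hKC hk))
  -- BC
  have h2 : ∀ x ∈ res g R, ∀ t ∈ K, x * t * x⁻¹ * t⁻¹ ∈ K ⊓ Q₀ := by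
    apply hg G R K (K ⊓ Q₀) _ inf_le_left (fun x _ t ht => hK.conj_mem t ht x) ?_ hcomm' hR
    · rintro _ ⟨x, hx, rfl⟩
      refine ⟨cj x L, cj_le_iff.2 fun t ht => hK.conj_mem t (hLK ht) x, ?_, ?_⟩
      · have h3 : (cj x L).relIndex K = L.relIndex K := by
          conv_lhs => rw [← cj_normal x K]
          exact relIndex_map_map_of_injective _ _ (MulAut.conj x).injective
        rw [h3]; exact hLc.trans hc
      · intro t ht
        have h3 := hL _ (mem_cj.1 ht)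
        have hxQ : x ∈ Q₀ := hWQ hx
        have h4 : x * (b * (x⁻¹ * t * x) * b⁻¹ * (x⁻¹ * t * x)⁻¹) * x⁻¹ ∈ K ⊓ Q₀ :=
          mem_inf.2 ⟨hK.conj_mem _ (mem_inf.1 h3).1 x,
            Q₀.mul_mem (Q₀.mul_mem hxQ (mem_inf.1 h3).2) (Q₀.inv_mem hxQ)⟩
        have h5 : x * b * x⁻¹ * t * (x * b * x⁻¹)⁻¹ * t⁻¹ =
          x * (b * (x⁻¹ * t * x) * b⁻¹ * (x⁻¹ * t * x)⁻¹) * x⁻¹ := by group
        rw [h5]; exact h4
    · intro x hx t ht
      have hxQ : x ∈ Q₀ := hWQ (hRW hx)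
      exact mem_inf.2 ⟨hK.conj_mem _ (mem_inf.1 ht).1 x,
            Q₀.mul_mem (Q₀.mul_mem hxQ (mem_inf.1 ht).2) (Q₀.inv_mem hxQ)⟩
  -- the centraliser of the section
  have hT'C : ∀ t ∈ K ⊓ Q₀, t ∈ K := fun t ht => (mem_inf.1 ht).1
  let C' : Subgroup G :=
    { carrier := {y | y ∈ X ∧ ∀ k ∈ K, y * k * y⁻¹ * k⁻¹ ∈ K ⊓ Q₀}
      one_mem' := ⟨X.one_mem, fun k _ => by simp⟩
      mul_mem' := by
        rintro y z ⟨hy, hy'⟩ ⟨hz, hz'⟩
        refine ⟨X.mul_mem hy hz, fun k hk => ?_⟩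
        have h3 := hz' k hk
        have h4 := (K ⊓ Q₀).mul_mem (hy' _ (mem_inf.1 h3).1) h3
        have h5 := (K ⊓ Q₀).mul_mem h4 (hy' k hk)
        have h6 : y * z * k * (y * z)⁻¹ * k⁻¹ =
          y * (z * k * z⁻¹ * k⁻¹) * y⁻¹ * (z * k * z⁻¹ * k⁻¹)⁻¹ * (z * k * z⁻¹ * k⁻¹) *
            (y * k * y⁻¹ * k⁻¹) := by group
        rw [h6]; exact h5
      inv_mem' := by
        rintro y ⟨hy, hy'⟩
        refine ⟨X.inv_mem hy, fun k hk => ?_⟩
        have h3 := hy' _ (hK.conj_mem k hk y⁻¹)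
        have h4 : y⁻¹ * k * y⁻¹⁻¹ * k⁻¹ =
          (y * (y⁻¹ * k * y⁻¹⁻¹) * y⁻¹ * (y⁻¹ * k * y⁻¹⁻¹)⁻¹)⁻¹ := by group
        rw [h4]
        exact (K ⊓ Q₀).inv_mem h3 }
  have hKC' : K ≤ C' := fun k hk => ⟨hKX hk, fun k' hk' => hcomm' k hk k' hk'⟩
  set N := C' ⊓ Q₀ with hN
  have hTN : K ⊓ Q₀ ≤ N := inf_le_inf_right _ hKC'
  have hdec : ∀ x ∈ C', ∃ k ∈ K, ∃ n ∈ N, x = k * n := by
    intro x hx
    obtain ⟨k, hk, s, hs, rfl⟩ := hXS x hx.1
    refine ⟨k, hk, s, mem_inf.2 ⟨?_, (mem_inf.1 hs).2⟩, rfl⟩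
    have := C'.mul_mem (C'.inv_mem (hKC' hk)) hx
    simpa using this
  have hNconj : ∀ x ∈ C', ∀ n ∈ N, x * n * x⁻¹ ∈ N := by
    intro x hx n hn
    obtain ⟨k, hk, s, hs, rfl⟩ := hdec x hx
    have hn' : s * n * s⁻¹ ∈ N := N.mul_mem (N.mul_mem hs hn) (N.inv_mem hs)
    have h3 := (K ⊓ Q₀).inv_mem ((mem_inf.1 hn').1.2 k hk)
    have h4 := N.mul_mem (hTN h3) hn'
    have h5 : k * s * n * (k * s)⁻¹ =
      ((s * n * s⁻¹) * k * (s * n * s⁻¹)⁻¹ * k⁻¹)⁻¹ * (s * n * s⁻¹) := by group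
    rw [h5]; exact h4
  have h3 : res 1 C' ≤ N := by
    apply res_one_le_of_comm' hNconj
    intro x hx y hy
    obtain ⟨k, hk, s, hs, rfl⟩ := hdec x hx
    obtain ⟨k', hk', s', hs', rfl⟩ := hdec y hy
    have e1 : k * s * (k' * s') * (k * s)⁻¹ * (k' * s')⁻¹ =
      (k * (s * ((k' * s') * s⁻¹ * (k' * s')⁻¹)) * k⁻¹) *
        ((k * k' * k⁻¹ * k'⁻¹) * (k' * ((k * s' * k⁻¹) * s'⁻¹) * k'⁻¹)) := by group
    rw [e1]
    apply N.mul_mem
    · apply hNconj _ (hKC' hk)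
      exact N.mul_mem hs (hNconj _ hy _ (N.inv_mem hs))
    · apply N.mul_mem (hTN (hcomm' k hk k' hk'))
      apply hNconj _ (hKC' hk')
      exact N.mul_mem (hNconj _ (hKC' hk) _ hs') (N.inv_mem hs')
  have h4 : res g C ≤ C' := by
    rw [hC, sup_comm]
    refine (res_sup_le_sup g S₁ K).trans (sup_le ?_ hKC')
    intro y hy
    refine ⟨(mem_inf.1 (mem_inf.1 (res_le g S₁ hy)).2).1, ?_⟩
    exact h2 y (res_mono g inf_le_left hy)
  have h5 : res (m * (F + 1) + (g + 1)) X ≤ Q₀ :=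
    res_le_of_res_le h1 ((res_le_of_res_le h4 h3).trans inf_le_right)
  have h6 := le_cj_of_normal h5 k₀⁻¹
  rwa [hQ₀, cj_cj, inv_mul_cancel, cj_one] at h6

/-- Theorem I. -/
theorem thmI_of (hW : LemW) (hBC : BC) {m F : ℕ} (hB : Bd (m - 1) F) : ∃ h, ThmI m h := by
  obtain ⟨g, hg⟩ := hBC.internal m
  set f := m * (F + 1) with hf
  set e := f + (f + (g + 1)) with he
  refine ⟨m * e, ?_⟩
  intro G _ _ _ A P H hA hc hAH
  obtain ⟨N, hN⟩ := (inferInstance : Group.IsSolvable G).solvable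
  let Y : ℕ → Subgroup G := fun n => derivedSeries G n ⊔ H
  have hYanti : ∀ i j, i ≤ j → Y j ≤ Y i := fun i j hij =>
    sup_le_sup_right (derivedSeries_antitone G hij) _
  have hYN : Y N = H := by simp only [Y, hN]; simp
  have hHY : ∀ n, H ≤ Y n := fun n => le_sup_right
  have hAY : ∀ n x, A ⊓ cj x (Y n) ≠ ⊥ := by
    intro n x h
    apply hAH x
    rw [eq_bot_iff, ← h]
    exact inf_le_inf_left _ (cj_mono (hHY n))
  -- single steps
  have hstep : ∀ n, res (f + (g + 1)) (Y n).normalCore ≤ Y (n + 1) := by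
    intro n
    have hYY : Y n = derivedSeries G n ⊔ Y (n + 1) := by
      simp only [Y]
      rw [← sup_assoc, sup_eq_left.2 (derivedSeries_antitone G (Nat.le_succ n))]
    rw [hYY]
    apply single_step hW hB hg hA hc
    · intro s hs t ht
      apply (le_sup_left : derivedSeries G (n + 1) ≤ Y (n + 1))
      rw [derivedSeries_succ]
      exact commutator_mem_commutator hs ht
    · intro k _
      exact hAY (n + 1) k
  -- the path argument
  have key : ∀ b n x, Nat.card (A ⊓ cj x (Y n) : Subgroup G) ≤ b →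
      res (b * e) (Y n).normalCore ≤ H := by
    intro b
    induction b with
    | zero =>
      intro n x hb
      have : 0 < Nat.card (A ⊓ cj x (Y n) : Subgroup G) := Nat.card_pos
      omega
    | succ b ih =>
      intro n x hb
      by_cases hall : res f (Y n).normalCore ≤ Y N
      · rw [hYN] at hall
        refine (res_antitone _ ?_).trans hall
        rw [he]; nlinarith [Nat.zero_le (b * (f + (f + (g + 1))))]
      · classical
        have hex : ∃ n', ¬ res f (Y n).normalCore ≤ Y n' := ⟨N, hall⟩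
        set n' := Nat.find hex with hn'
        have hn'1 : ¬ res f (Y n).normalCore ≤ Y n' := Nat.find_spec hex
        have hn'n : n < n' := by
          by_contra hcon
          push Not at hcon
          exact hn'1 ((res_le _ _).trans ((normalCore_le _).trans (hYanti _ _ hcon)))
        obtain ⟨p, hp⟩ : ∃ p, n' = p + 1 := ⟨n' - 1, by omega⟩
        have hp1 : res f (Y n).normalCore ≤ Y p := by
          by_contra hcon
          have := Nat.find_min' hex hcon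
          omega
        have hnn : (Y n).normalCore.Normal := normalCore_normal _
        have hp2 : res f (Y n).normalCore ≤ (Y p).normalCore := le_normalCore hp1
        have hpn : (Y p).normalCore.Normal := normalCore_normal _
        have hp3 : res (f + (f + (g + 1))) (Y n).normalCore ≤ (Y n').normalCore := by
          apply le_normalCore
          rw [hp]
          exact res_le_of_res_le hp2 (hstep p)
        -- an element moving down
        obtain ⟨⟨σ, hσ⟩, hσ1⟩ := Subgroup.ne_bot_iff_exists_ne_one.1 (hAY n x)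
        have hσ1' : σ ≠ 1 := fun h => hσ1 (Subtype.ext h)
        have hmove : ∃ y ∈ (Y n).normalCore, σ ∉ cj y (cj x (Y n')) := by
          by_contra hcon
          push Not at hcon
          have h1 := hW.gp hB hA hc (mem_inf.1 hσ).1 hσ1' hcon
          apply hn'1
          have h2 := le_cj_of_normal h1 x⁻¹
          rwa [cj_cj, inv_mul_cancel, cj_one] at h2
        obtain ⟨y, hy, hσy⟩ := hmove
        have hyx : cj (y * x) (Y n) = cj x (Y n) := by
          rw [← cj_cj]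
          apply cj_self_of_mem
          exact le_cj_of_normal (normalCore_le _) x hy
        have hlt : Nat.card (A ⊓ cj (y * x) (Y n') : Subgroup G) <
            Nat.card (A ⊓ cj x (Y n) : Subgroup G) := by
          apply Set.ncard_lt_ncard (s := ((A ⊓ cj (y * x) (Y n') : Subgroup G) : Set G))
            (t := ((A ⊓ cj x (Y n) : Subgroup G) : Set G))
          apply SetLike.coe_ssubset_coe.2
          refine lt_of_le_of_ne ?_ ?_
          · refine inf_le_inf_left _ ?_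
            rw [← hyx]
            exact cj_mono (hYanti _ _ hn'n.le)
          · intro heq
            apply hσy
            rw [cj_cj]
            have : σ ∈ A ⊓ cj (y * x) (Y n') := by rw [heq]; exact hσ
            exact (mem_inf.1 this).2
        have h3 := ih n' (y * x) (by omega)
        have h4 := res_le_of_res_le hp3 h3
        rwa [show (b + 1) * e = f + (f + (g + 1)) + b * e by rw [he]; ring]
  have h0 : (Y 0).normalCore = ⊤ := by
    have : Y 0 = ⊤ := by simp only [Y, derivedSeries_zero]; simp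
    rw [this]
    exact top_le_iff.1 (le_normalCore le_top)
  have := key m 0 1 ((card_le_of_le inf_le_left).trans hc)
  rwa [h0] at this

end step

end Pool.Agent.Th
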