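import Mathlib
import Pool.Agent.Helper9.Th.ThmI

set_option autoImplicit false

namespace Pool.Agent.Th

open Subgroup

/-- An element `1 ≠ b ∈ A` with small commutator on an abelian section `T / T'` normalised by
`J` and `b` forces a bounded term of the series of `J` to act trivially on the section. -/
theorem section_bound (hW : LemW) {m F c g : ℕ} (hB : Bd (m - 1) F)
    (hg : ∀ (G : Type) [Group G] [Finite G]
    [Group.IsSolvable G] (R T T' : Subgroup G) (S : Set G),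
    T' ≤ T → (∀ x ∈ R, ∀ t ∈ T, x * t * x⁻¹ ∈ T) → (∀ x ∈ R, ∀ t ∈ T', x * t * x⁻¹ ∈ T') →
    (∀ s ∈ T, ∀ t ∈ T, s * t * s⁻¹ * t⁻¹ ∈ T') → R = closure S →
    (∀ s ∈ S, ∃ L : Subgroup G, L ≤ T ∧ L.relIndex T ≤ c ∧
      ∀ t ∈ L, s * t * s⁻¹ * t⁻¹ ∈ T') →
    ∀ x ∈ res g R, ∀ t ∈ T, x * t * x⁻¹ * t⁻¹ ∈ T')
    {G : Type} [Group G] [Finite G] [Group.IsSolvable G]
    {A P J T T' : Subgroup G} (hA : SolIn A P) (hc : Nat.card A ≤ m) [hJ : J.Normal]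
    (hTT' : T' ≤ T) (hJT : ∀ x ∈ J, ∀ t ∈ T, x * t * x⁻¹ ∈ T)
    (hJT' : ∀ x ∈ J, ∀ t ∈ T', x * t * x⁻¹ ∈ T')
    (hcomm : ∀ s ∈ T, ∀ t ∈ T, s * t * s⁻¹ * t⁻¹ ∈ T')
    {b : G} (hb : b ∈ A) (hb1 : b ≠ 1) (hbT : ∀ t ∈ T, b * t * b⁻¹ ∈ T)
    (hbT' : ∀ t ∈ T', b * t * b⁻¹ ∈ T')
    (hL : ∃ L : Subgroup G, L ≤ T ∧ L.relIndex T ≤ c ∧ ∀ t ∈ L, b * t * b⁻¹ * t⁻¹ ∈ T') :
    ∀ x ∈ res (m * (F + 1) + g) J, ∀ t ∈ T, x * t * x⁻¹ * t⁻¹ ∈ T' := by
  have hcjJT : ∀ x ∈ J, cj x T = T := fun x hx => cj_eq_of_le (cj_le_iff.2 (hJT x hx))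
  have hcjJT' : ∀ x ∈ J, cj x T' = T' := fun x hx => cj_eq_of_le (cj_le_iff.2 (hJT' x hx))
  have hcjbT : cj b T = T := cj_eq_of_le (cj_le_iff.2 hbT)
  have hcjbT' : cj b T' = T' := cj_eq_of_le (cj_le_iff.2 hbT')
  set W := J ⊔ zpowers b with hWdef
  have hbW : b ∈ W := (le_sup_right : zpowers b ≤ W) (mem_zpowers b)
  have hJW : J ≤ W := le_sup_left
  -- the stabiliser of both
  let St : Subgroup G :=
    { carrier := {x | cj x T = T ∧ cj x T' = T'}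
      one_mem' := ⟨cj_one T, cj_one T'⟩
      mul_mem' := by
        rintro x y ⟨hx, hx'⟩ ⟨hy, hy'⟩
        exact ⟨by rw [← cj_cj, hy, hx], by rw [← cj_cj, hy', hx']⟩
      inv_mem' := by
        rintro x ⟨hx, hx'⟩
        constructor
        · conv_lhs => rw [← hx]
          rw [cj_cj, inv_mul_cancel, cj_one]
        · conv_lhs => rw [← hx']
          rw [cj_cj, inv_mul_cancel, cj_one] }
  have hWSt : W ≤ St := sup_le (fun x hx => ⟨hcjJT x hx, hcjJT' x hx⟩)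
    (zpowers_le.2 ⟨hcjbT, hcjbT'⟩)
  set R := Subgroup.closure {y | ∃ x ∈ W, y = x * b * x⁻¹} with hR
  have hRW : R ≤ W := by
    rw [hR, closure_le]
    rintro _ ⟨x, hx, rfl⟩
    exact W.mul_mem (W.mul_mem hx hbW) (W.inv_mem hx)
  have hRconj : ∀ w ∈ W, ∀ r ∈ R, w * r * w⁻¹ ∈ R := by
    intro w hw
    rw [← cj_le_iff]
    show (Subgroup.closure _).map _ ≤ R
    rw [MonoidHom.map_closure, closure_le]
    rintro _ ⟨_, ⟨x, hx, rfl⟩, rfl⟩
    exact subset_closure ⟨w * x, W.mul_mem hw hx, by simp [mul_assoc]⟩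
  have hbR : b ∈ R := subset_closure ⟨1, W.one_mem, by simp⟩
  have h1 : res (m * (F + 1)) J ≤ R ⊓ J := by
    apply hW m F hB G A P J (R ⊓ J) b hA hc hJ inf_le_right ?_ hb hb1 ?_ ?_
    · intro x hx c hc'
      exact mem_inf.2 ⟨hRconj x (hJW hx) c (mem_inf.1 hc').1,
        hJ.conj_mem c (mem_inf.1 hc').2 x⟩
    · intro c hc'
      exact mem_inf.2 ⟨hRconj b hbW c (mem_inf.1 hc').1, hJ.conj_mem c (mem_inf.1 hc').2 b⟩
    · intro x hx
      refine mem_inf.2 ⟨?_, J.mul_mem (hJ.conj_mem x hx b) (J.inv_mem hx)⟩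
      have := R.mul_mem hbR (hRconj x (hJW hx) _ (R.inv_mem hbR))
      simpa [mul_assoc] using this
  have h2 : ∀ x ∈ res g R, ∀ t ∈ T, x * t * x⁻¹ * t⁻¹ ∈ T' := by
    apply hg G R T T' _ hTT' ?_ ?_ hcomm hR
    · rintro _ ⟨x, hx, rfl⟩
      obtain ⟨L, hLT, hLc, hLt⟩ := hL
      have hxT := (hWSt hx).1
      have hxT' := (hWSt hx).2
      refine ⟨cj x L, by rw [← hxT]; exact cj_mono hLT, ?_, ?_⟩
      · have h3 : (cj x L).relIndex T = L.relIndex T := by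
          conv_lhs => rw [← hxT]
          exact relIndex_map_map_of_injective _ _ (MulAut.conj x).injective
        rw [h3]; exact hLc
      · intro t ht
        have h3 := hLt _ (mem_cj.1 ht)
        have h4 : x * (b * (x⁻¹ * t * x) * b⁻¹ * (x⁻¹ * t * x)⁻¹) * x⁻¹ ∈ T' := by
          rw [← hxT']; exact conj_mem_cj h3
        have h5 : x * b * x⁻¹ * t * (x * b * x⁻¹)⁻¹ * t⁻¹ =
          x * (b * (x⁻¹ * t * x) * b⁻¹ * (x⁻¹ * t * x)⁻¹) * x⁻¹ := by group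
        rw [h5]; exact h4
    · intro x hx
      exact cj_le_iff.1 (hWSt (hRW hx)).1.le
    · intro x hx
      exact cj_le_iff.1 (hWSt (hRW hx)).2.le
  intro x hx
  apply h2
  rw [res_add] at hx
  exact res_mono g (h1.trans inf_le_left) hx

end Pool.Agent.Th
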