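import Mathlib
import Pool.Agent.Helper9.Th.HH

set_option autoImplicit false

namespace Pool.Agent.Th

open Subgroup

section

variable {G : Type} [Group G]

/-- an elementary abelian section of odd exponent with normal top and bottom. -/
structure OddSec (X Y : Subgroup G) (q : ℕ) : Prop where
  hX : X.Normal
  hY : Y.Normal
  le : Y ≤ X
  prime : q.Prime
  ne_two : q ≠ 2
  pow : ∀ x ∈ X, x ^ q ∈ Y
  comm : ∀ x ∈ X, ∀ y ∈ X, x * y * x⁻¹ * y⁻¹ ∈ Y

/-- the intersection of the centralisers of all such sections. -/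
def FF (G : Type) [Group G] : Subgroup G where
  carrier := {g | ∀ (X Y : Subgroup G) (q : ℕ), OddSec X Y q → ∀ x ∈ X, g * x * g⁻¹ * x⁻¹ ∈ Y}
  one_mem' := by intro X Y q _ x _; simp
  mul_mem' := by
    intro g h hg hh X Y q hs x hx
    have h1 := hh X Y q hs x hx
    have h2 := hg X Y q hs x hx
    have h3 := Y.mul_mem (hs.hY.conj_mem _ h1 g) h2
    have h4 : g * h * x * (g * h)⁻¹ * x⁻¹ =
      g * (h * x * h⁻¹ * x⁻¹) * g⁻¹ * (g * x * g⁻¹ * x⁻¹) := by group
    rw [h4]; exact h3
  inv_mem' := by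
    intro g hg X Y q hs x hx
    have h1 := Y.inv_mem (hg X Y q hs x hx)
    have h2 := hs.hY.conj_mem _ h1 g⁻¹
    have h4 : g⁻¹ * x * g⁻¹⁻¹ * x⁻¹ = g⁻¹ * (g * x * g⁻¹ * x⁻¹)⁻¹ * g⁻¹⁻¹ := by group
    rw [h4]; exact h2

instance FF_normal : (FF G).Normal := by
  constructor
  intro g hg h X Y q hs x hx
  have h1 := hg X Y q hs (h⁻¹ * x * h) (by
    have := hs.hX.conj_mem x hx h⁻¹
    simpa using this)
  have h2 := hs.hY.conj_mem _ h1 h
  have h3 : h * g * h⁻¹ * x * (h * g * h⁻¹)⁻¹ * x⁻¹ =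
    h * (g * (h⁻¹ * x * h) * g⁻¹ * (h⁻¹ * x * h)⁻¹) * h⁻¹ := by group
  rw [h3]; exact h2

/-- closures of conjugation-invariant sets are normal. -/
theorem normal_closure_of_conj {S : Set G} (h : ∀ g : G, ∀ s ∈ S, g * s * g⁻¹ ∈ S) :
    (Subgroup.closure S).Normal := by
  apply normal_of_cj
  intro g
  show (Subgroup.closure _).map _ ≤ _
  rw [MonoidHom.map_closure, closure_le]
  rintro _ ⟨s, hs, rfl⟩
  exact subset_closure (h g s hs)

theorem Od_Ev_FF [Finite G] [Group.IsSolvable G] : Od (Ev (FF G)) = ⊥ := by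
  by_contra hW0
  set E := Ev (FF G) with hE
  set W := Od E with hW
  have hEn : E.Normal := Ev_normal _
  have hWn : W.Normal := Od_normal _
  have hW' : ⁅W, W⁆ < W := Group.IsSolvable.commutator_lt_of_ne_bot hW0
  have hWW : Od W = W := Od_idem _
  -- the abelian group `W / [W,W]`
  have hB1 : Nat.card (Abelianization W) ≠ 1 := by
    intro h1
    have h2 : commutator W = ⊤ := by
      rw [← Abelianization.ker_of, eq_top_iff]
      intro x _
      rw [MonoidHom.mem_ker]
      have := (Nat.card_eq_one_iff_unique.1 h1).1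
      exact Subsingleton.elim _ _
    have hlt : commutator W < ⊤ := by
      have : Nontrivial W := (nontrivial_iff_ne_bot W).2 hW0
      exact Group.IsSolvable.commutator_lt_top_of_nontrivial W
    exact hlt.ne h2
  obtain ⟨q, hq, hqd⟩ := Nat.exists_prime_and_dvd hB1
  have : Fact q.Prime := ⟨hq⟩
  set S : Set G := {y | ∃ x ∈ W, y = x ^ q} with hS
  have hSn : (Subgroup.closure S).Normal := by
    apply normal_closure_of_conj
    rintro g _ ⟨x, hx, rfl⟩
    exact ⟨g * x * g⁻¹, hWn.conj_mem x hx g, (conj_pow).symm⟩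
  set Y := Subgroup.closure S ⊔ ⁅W, W⁆ with hY
  have hYn : Y.Normal := inferInstance
  have hYW : Y ≤ W := by
    refine sup_le ?_ hW'.le
    rw [closure_le]
    rintro _ ⟨x, hx, rfl⟩
    exact W.pow_mem hx q
  have hYne : ¬ W ≤ Y := by
    intro hcon
    -- the q-power map on the abelianization would be surjective
    have hle : Y ≤ ((powMonoidHom q : Abelianization W →* Abelianization W).range.comap
        Abelianization.of).map W.subtype := by
      refine sup_le ?_ ?_
      · rw [closure_le]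
        rintro _ ⟨x, hx, rfl⟩
        refine ⟨⟨x, hx⟩ ^ q, ?_, rfl⟩
        exact ⟨Abelianization.of ⟨x, hx⟩, by rw [powMonoidHom_apply, map_pow]⟩
      · rw [← map_subtype_commutator]
        apply map_mono
        intro x hx
        rw [mem_comap]
        rw [← Abelianization.ker_of, MonoidHom.mem_ker] at hx
        rw [hx]; exact one_mem _
    have hsurj : Function.Surjective (powMonoidHom q : Abelianization W →* Abelianization W) := by
      intro b
      obtain ⟨⟨x, hx⟩, rfl⟩ : ∃ x, Abelianization.of x = b := QuotientGroup.mk'_surjective _ b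
      obtain ⟨y, hy, hyx⟩ := hle (hcon hx)
      have : y = ⟨x, hx⟩ := Subtype.ext hyx
      subst this
      exact hy
    have hinj := Finite.injective_iff_surjective.2 hsurj
    obtain ⟨b, hb⟩ := exists_prime_orderOf_dvd_card' (G := Abelianization W) q hqd
    have h1 : b = 1 := by
      apply hinj
      simp only [powMonoidHom_apply, one_pow]
      rw [← hb]; exact pow_orderOf_eq_one b
    rw [h1, orderOf_one] at hb
    exact hq.one_lt.ne hb
  have hq2 : q ≠ 2 := by
    intro h2
    apply hYne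
    rw [← hWW, Od_le_iff]
    rintro x hx ⟨n, hn⟩
    have h3 : x ^ 2 ∈ Y := by
      rw [← h2]
      exact (le_sup_left : Subgroup.closure S ≤ Y) (subset_closure ⟨x, hx, rfl⟩)
    have h4 : x = (x ^ 2) ^ (n + 1) := by
      rw [← pow_mul]
      calc x = x ^ (2 * n + 1) * x := by rw [hn, one_mul]
        _ = x ^ (2 * (n + 1)) := by rw [← pow_succ]; congr 1
    rw [h4]; exact Y.pow_mem h3 _
  have hsec : OddSec W Y q :=
    { hX := hWn
      hY := hYn
      le := hYW
      prime := hq
      ne_two := hq2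
      pow := fun x hx => (le_sup_left : Subgroup.closure S ≤ Y) (subset_closure ⟨x, hx, rfl⟩)
      comm := fun x hx y hy =>
        (le_sup_right : ⁅W, W⁆ ≤ Y) (commutator_mem_commutator hx hy) }
  -- pass to `G ⧸ Y`
  set π := QuotientGroup.mk' Y with hπ
  have hπs : Function.Surjective π := QuotientGroup.mk'_surjective Y
  set E' := E.map π with hE'
  set W'' := W.map π with hW''
  have hOdE' : Od E' = W'' := by rw [hE', Od_map]
  have hEvE' : Ev E' = E' := by rw [hE', Ev_map, hE, Ev_idem]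
  have hWE' : W'' ≤ E' := by rw [← hOdE']; exact Od_le _
  set Z := W''.subgroupOf E' with hZ
  have hZc : ∀ z ∈ Z, ∀ x : E', z * x = x * z := by
    rintro ⟨z, hz⟩ hzW ⟨x, hx⟩
    rw [hZ, mem_subgroupOf] at hzW
    obtain ⟨w, hw, rfl⟩ := hzW
    obtain ⟨e, he, rfl⟩ := hx
    apply Subtype.ext
    show π w * π e = π e * π w
    have h1 : e * w * e⁻¹ * w⁻¹ ∈ Y := Ev_le _ he W Y q hsec w hw
    have h2 : π (e * w * e⁻¹ * w⁻¹) = 1 := by
      rw [hπ, QuotientGroup.mk'_apply, QuotientGroup.eq_one_iff]; exact h1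
    rw [map_mul, map_mul, map_mul, map_inv, map_inv, mul_inv_eq_one, mul_inv_eq_iff_eq_mul] at h2
    exact h2.symm
  have hZodd : ¬ 2 ∣ Nat.card Z := by
    intro h2
    obtain ⟨z, hz⟩ := exists_prime_orderOf_dvd_card' (G := Z) 2 h2
    have h3 : z ^ q = 1 := by
      obtain ⟨⟨z, hz1⟩, hz2⟩ := z
      have hz3 := hz2
      rw [hZ, mem_subgroupOf] at hz3
      obtain ⟨w, hw, hwz⟩ := hz3
      apply Subtype.ext
      apply Subtype.ext
      show z ^ q = 1
      have hwz' : π w = z := hwz
      rw [← hwz', ← map_pow, hπ, QuotientGroup.mk'_apply, QuotientGroup.eq_one_iff]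
      exact hsec.pow w hw
    have h4 := orderOf_dvd_of_pow_eq_one h3
    rw [hz] at h4
    exact hq2 ((Nat.prime_dvd_prime_iff_eq Nat.prime_two hq).1 h4).symm
  obtain ⟨k, hk⟩ := isP2_index_Od E'
  have hZi : Z.index = 2 ^ k := by rw [hZ, ← hOdE']; exact hk
  have hcop : (Nat.card Z).Coprime Z.index := by
    rw [hZi]
    apply Nat.Coprime.pow_right
    exact ((Nat.Prime.coprime_iff_not_dvd Nat.prime_two).2 hZodd).symm
  obtain ⟨U, hU1, hU2⟩ := central_compl Z hZc hcop
  have hEU : E' ≤ U.map E'.subtype := by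
    conv_lhs => rw [← hEvE']
    rw [Ev_le_iff]
    rintro x hx ⟨n, hn⟩
    refine ⟨⟨x, hx⟩, hU2 _ (2 ^ n) (Subtype.ext (by simpa using hn)) ?_, rfl⟩
    exact Nat.Coprime.pow_left n ((Nat.Prime.coprime_iff_not_dvd Nat.prime_two).2 hZodd)
  have hcard : Nat.card E' ≤ Nat.card U := by
    have h4 : Nat.card (U.map E'.subtype) = Nat.card U :=
      (Nat.card_congr (U.equivMapOfInjective _ E'.subtype_injective).toEquiv).symm
    rw [← h4]
    exact card_le_of_le hEU
  rw [hU1] at hcard
  have h5 : Nat.card Z * Z.index = Nat.card E' := card_mul_index Z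
  have h6 : Nat.card Z = 1 := by
    have hpos : 0 < Z.index := by rw [hZi]; positivity
    have hpos2 : 0 < Nat.card Z := Nat.card_pos
    nlinarith
  have h7 : W'' = ⊥ := by
    have h8 : Z = ⊥ := card_eq_one.1 h6
    rw [hZ, subgroupOf_eq_bot, disjoint_iff] at h8
    rwa [inf_eq_left.2 hWE'] at h8
  rw [hW'', Subgroup.map_eq_bot_iff, hπ, QuotientGroup.ker_mk'] at h7
  exact hYne h7

end

end Pool.Agent.Th
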