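import Mathlib
import Pool.Agent.Helper9.Th.DSec

set_option autoImplicit false

namespace Pool.Agent.Th

open Subgroup

section dual

variable {M : Type} [Group M] (V : Type) [AddCommGroup V] [DistribMulAction M V]
  (k : Type) [Field k]

/-- the dual representation on `V →+ k`. -/
noncomputable def dualRep : Representation k M (V →+ k) where
  toFun g :=
    { toFun := fun f => f.comp (DistribSMul.toAddMonoidHom V (g⁻¹ : M))
      map_add' := fun _ _ => rfl
      map_smul' := fun _ _ => rfl }
  map_one' := by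
    apply LinearMap.ext
    intro f
    apply AddMonoidHom.ext
    intro x
    show f ((1 : M)⁻¹ • x) = f x
    rw [inv_one, one_smul]
  map_mul' g h := by
    apply LinearMap.ext
    intro f
    apply AddMonoidHom.ext
    intro x
    show f ((g * h)⁻¹ • x) = f (h⁻¹ • (g⁻¹ • x))
    rw [mul_inv_rev, mul_smul]

theorem dualRep_apply (g : M) (f : V →+ k) (x : V) :
    dualRep V k g f x = f (g⁻¹ • x) := rfl

end dual

theorem exists_functional_aux {V : Type} [AddCommGroup V] {F : Type} [Field F]
    [Module F V] (k : Type) [Field k] [Algebra F k] {v : V} (hv : v ≠ 0) :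
    ∃ f : V →+ k, f v ≠ 0 := by
  obtain ⟨f, hf⟩ : ∃ f : Module.Dual F V, f v ≠ 0 := by
    by_contra hcon
    push Not at hcon
    exact hv ((Module.forall_dual_apply_eq_zero_iff F v).1 hcon)
  refine ⟨(algebraMap F k).toAddMonoidHom.comp f.toAddMonoidHom, ?_⟩
  show algebraMap F k (f v) ≠ 0
  intro h
  exact hf ((map_eq_zero (algebraMap F k)).1 h)

/-- functionals separate points. -/
theorem exists_functional {V : Type} [AddCommGroup V] {q : ℕ} [Fact q.Prime]
    (hV : ∀ v : V, q • v = 0) (k : Type) [Field k] [CharP k q] {v : V} (hv : v ≠ 0) :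
    ∃ f : V →+ k, f v ≠ 0 := by
  let _ : Module (ZMod q) V := AddCommGroup.zmodModule hV
  let _ : Algebra (ZMod q) k := ZMod.algebra k q
  exact exists_functional_aux (F := ZMod q) k hv

theorem finiteDimensional_hom {V : Type} [AddCommGroup V] [Finite V] (k : Type) [Field k] :
    FiniteDimensional k (V →+ k) := by
  let L : (V →+ k) →ₗ[k] (V → k) :=
    { toFun := fun f => f
      map_add' := fun _ _ => rfl
      map_smul' := fun _ _ => rfl }
  exact FiniteDimensional.of_injective L (fun _ _ h => DFunLike.coe_injective h)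

/-- the linear step in abstract form. -/
theorem lin_abs {m h : ℕ} (hS : PropS2 m h) {M : Type} [Group M] [Finite M]
    [Group.IsSolvable M] {A P Q : Subgroup M} (hA : SolIn A P) (hc : Nat.card A ≤ m)
    [hQn : Q.Normal] (hQ2 : IsPGroup 2 Q) {V : Type} [AddCommGroup V] [Finite V]
    [DistribMulAction M V] {q : ℕ} (hq : q.Prime) (hq2 : q ≠ 2) (hV : ∀ v : V, q • v = 0)
    (hfix : ∀ v : V, (∀ a ∈ A, a • v = v) → ∀ y ∈ Q, y • v = v) :
    ∀ x ∈ res h (⊤ : Subgroup M), ∀ y ∈ Q, ∀ v : V, (x * y * x⁻¹ * y⁻¹) • v = v := by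
  classical
  have : Fact q.Prime := ⟨hq⟩
  have := Fintype.ofFinite Q
  set k := AlgebraicClosure (ZMod q) with hk
  have hchar : CharP k q := inferInstance
  have h2k : (2 : k) ≠ 0 := by
    intro h2
    have h3 : ((2 : ℕ) : k) = 0 := by exact_mod_cast h2
    rw [CharP.cast_eq_zero_iff k q] at h3
    exact hq2 ((Nat.prime_dvd_prime_iff_eq hq Nat.prime_two).1 h3)
  have hpow2 : ∀ n : ℕ, ((2 ^ n : ℕ) : k) ≠ 0 := by
    intro n; push_cast; exact pow_ne_zero n h2k
  set ρ := dualRep (M := M) V k with hρ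
  set e : (V →+ k) →ₗ[k] (V →+ k) := ∑ y : Q, ρ (y : M) with he
  have he_apply : ∀ f : V →+ k, e f = ∑ y : Q, ρ (y : M) f := by
    intro f; rw [he, LinearMap.sum_apply]
  set M₁ := LinearMap.ker e with hM₁
  have hinv : ∀ x : M, ∀ f ∈ M₁, ρ x f ∈ M₁ := by
    intro x f hf
    rw [hM₁, LinearMap.mem_ker, he_apply] at hf ⊢
    have h1 : ∑ y : Q, ρ (y : M) (ρ x f) =
        ∑ y : Q, ρ x (ρ (y : M) f) := by
      refine Fintype.sum_bijective (fun y : Q => (⟨x⁻¹ * y * x, by
        have := hQn.conj_mem y y.2 x⁻¹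
        simpa using this⟩ : Q)) ?_ _ _ ?_
      · constructor
        · rintro ⟨a, ha⟩ ⟨b, hb⟩ hab
          simp only [Subtype.mk.injEq, mul_left_inj, mul_right_inj] at hab
          exact Subtype.ext hab
        · rintro ⟨a, ha⟩
          refine ⟨⟨x * a * x⁻¹, hQn.conj_mem a ha x⟩, Subtype.ext ?_⟩
          show x⁻¹ * (x * a * x⁻¹) * x = a
          group
      · rintro ⟨y, hy⟩
        show ρ y (ρ x f) = ρ x (ρ (x⁻¹ * y * x) f)
        rw [← Module.End.mul_apply, ← Module.End.mul_apply, ← map_mul, ← map_mul]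
        congr 2
        group
    rw [h1, ← map_sum, hf, map_zero]
  let ρ₁ : Representation k M M₁ :=
    { toFun := fun x => (ρ x).restrict (hinv x)
      map_one' := by
        apply LinearMap.ext
        intro f
        apply Subtype.ext
        show ρ 1 (f : V →+ k) = f
        rw [map_one]; rfl
      map_mul' := by
        intro x y
        apply LinearMap.ext
        intro f
        apply Subtype.ext
        show ρ (x * y) (f : V →+ k) = ρ x (ρ y f)
        rw [map_mul]; rfl }
  have hfd : FiniteDimensional k (V →+ k) := finiteDimensional_hom k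
  have hfd1 : FiniteDimensional k M₁ := inferInstance
  -- `A` has no fixed vectors on `M₁`
  have hnofix : ∀ v : M₁, ∑ᶠ a : A, ρ₁ (a : M) v = 0 := by
    intro f
    have := Fintype.ofFinite A
    rw [finsum_eq_sum_of_fintype]
    apply Subtype.ext
    rw [Submodule.coe_sum]
    apply AddMonoidHom.ext
    intro v
    show (∑ a : A, ρ (a : M) (f : V →+ k)) v = 0
    rw [AddMonoidHom.finsetSum_apply]
    set w : V := ∑ a : A, (a : M)⁻¹ • v with hw
    have h1 : ∑ a : A, (ρ (a : M) (f : V →+ k)) v = (f : V →+ k) w := by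
      rw [hw, map_sum]
      rfl
    rw [h1]
    have hwA : ∀ a ∈ A, a • w = w := by
      intro a ha
      rw [hw, Finset.smul_sum]
      refine Fintype.sum_bijective (fun b : A => b * (⟨a, ha⟩ : A)⁻¹)
        (Group.mulRight_bijective _) _ _ ?_
      intro b
      show a • ((b : M)⁻¹ • v) = ((b : M) * a⁻¹)⁻¹ • v
      rw [← mul_smul]
      congr 1
      group
    have hwQ := hfix w hwA
    have h2 : (e (f : V →+ k)) w = 0 := by
      have h9 : e (f : V →+ k) = 0 := LinearMap.mem_ker.1 f.2
      rw [h9]; rfl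
    rw [he_apply, AddMonoidHom.finsetSum_apply] at h2
    have h3 : ∀ y : Q, (ρ (y : M) (f : V →+ k)) w = (f : V →+ k) w := by
      intro y
      show (f : V →+ k) ((y : M)⁻¹ • w) = _
      rw [hwQ _ (Q.inv_mem y.2)]
    rw [Finset.sum_congr rfl (fun y _ => h3 y), Finset.sum_const, Finset.card_univ,
      ← Nat.card_eq_fintype_card, nsmul_eq_mul] at h2
    obtain ⟨n, hn⟩ := IsPGroup.iff_card.1 hQ2
    rw [hn] at h2
    exact (mul_eq_zero.1 h2).resolve_left (hpow2 n)
  have hmain := hS M A P Q hA hc hQn hQ2 k M₁ ρ₁ h2k hnofix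
  intro x hx y hy
  set z := x * y * x⁻¹ * y⁻¹ with hz
  have hzQ : z ∈ Q := Q.mul_mem (hQn.conj_mem y hy x) (Q.inv_mem hy)
  have hz1 : ρ₁ z = 1 := hmain x hx y hy
  -- `z` acts trivially on all functionals
  have hzf : ∀ f : V →+ k, ρ z f = f := by
    intro f
    have hg : f - ρ z f ∈ M₁ := by
      rw [hM₁, LinearMap.mem_ker, map_sub, he_apply, he_apply, sub_eq_zero]
      symm
      refine Fintype.sum_bijective (fun b : Q => b * (⟨z, hzQ⟩ : Q))
        (Group.mulRight_bijective _) _ _ ?_
      rintro ⟨b, hb⟩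
      show ρ b (ρ z f) = ρ (b * z) f
      rw [map_mul ρ b z]; rfl
    have hzg : ρ z (f - ρ z f) = f - ρ z f := by
      have := congrArg (fun T => ((T (⟨f - ρ z f, hg⟩ : M₁) : M₁) : V →+ k)) hz1
      exact this
    have hiter : ∀ n : ℕ, ρ (z ^ n) f = f - n • (f - ρ z f) := by
      intro n
      induction n with
      | zero => simp
      | succ n ih =>
        have h1 : ρ (z ^ (n + 1)) f = ρ z (ρ (z ^ n) f) := by
          rw [pow_succ', map_mul]; rfl
        rw [h1, ih, map_sub, map_nsmul, hzg, succ_nsmul]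
        abel
    obtain ⟨n, hn⟩ := isTwo_of_isPGroup hQ2 hzQ
    have h1 := hiter (2 ^ n)
    rw [hn, map_one, Module.End.one_apply] at h1
    have h2 : (2 ^ n : ℕ) • (f - ρ z f) = 0 := by
      have := sub_eq_self.1 h1.symm
      exact this
    rw [← Nat.cast_smul_eq_nsmul k, smul_eq_zero] at h2
    exact (sub_eq_zero.1 (h2.resolve_left (hpow2 n))).symm
  intro v
  by_contra hne
  have hne' : z • v - v ≠ 0 := sub_ne_zero.2 hne
  obtain ⟨f, hf⟩ := exists_functional hV k hne'
  apply hf
  have h1 : (ρ z f) (z • v) = f (z • v) := by rw [hzf]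
  have h2 : (ρ z f) (z • v) = f v := by
    show f (z⁻¹ • (z • v)) = f v
    rw [inv_smul_smul]
  rw [map_sub, ← h1, h2, sub_self]

end Pool.Agent.Th
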