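import Mathlib
import Pool.Agent.Helper9.Th.DLin

set_option autoImplicit false

namespace Pool.Agent.Th

open Subgroup

section

variable {G : Type} [Group G]

theorem mem_sup_normal' {K Q : Subgroup G} [K.Normal] {x : G}
    (hx : x ∈ K ⊔ Q) : ∃ k ∈ K, ∃ q ∈ Q, x = k * q := by
  rw [← SetLike.mem_coe, normal_mul] at hx
  obtain ⟨k, hk, q, hq, rfl⟩ := hx
  exact ⟨k, hk, q, hq, rfl⟩

/-- an elementary abelian normal subgroup as a module. -/
theorem lin_normal {m h : ℕ} (hS : PropS2 m h) {G' : Type} [Group G'] [Finite G']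
    {A' P' X' : Subgroup G'} (hA' : SolIn A' P') [hXn : X'.Normal]
    {q : ℕ} (hq : q.Prime) (hq2 : q ≠ 2) (hpow : ∀ x ∈ X', x ^ q = 1)
    (hcomm : ∀ x ∈ X', ∀ y ∈ X', x * y = y * x)
    {M : Type} [Group M] [Finite M] [Group.IsSolvable M] (π : M →* G')
    {A P Q : Subgroup M} (hA : SolIn A P) (hc : Nat.card A ≤ m)
    [hQn : Q.Normal] (hQ2 : IsPGroup 2 Q) (hAA' : A' ≤ A.map π) (hPP' : P.map π ≤ P') :
    ∀ x ∈ res h (⊤ : Subgroup M), ∀ y ∈ Q, ∀ v ∈ X',
      π (x * y * x⁻¹ * y⁻¹) * v * (π (x * y * x⁻¹ * y⁻¹))⁻¹ = v := by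
  let cg : CommGroup X' :=
    { (inferInstance : Group X') with
      mul_comm := fun a b => Subtype.ext (hcomm a a.2 b b.2) }
  let act : DistribMulAction M (Additive X') :=
    { smul := fun m v => Additive.ofMul (MulAut.conjNormal (π m) (Additive.toMul v))
      one_smul := by
        intro v
        show Additive.ofMul (MulAut.conjNormal (π 1) (Additive.toMul v)) = v
        rw [map_one, map_one]; rfl
      mul_smul := by
        intro a b v
        show Additive.ofMul (MulAut.conjNormal (π (a * b)) (Additive.toMul v)) =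
          Additive.ofMul (MulAut.conjNormal (π a) (MulAut.conjNormal (π b) (Additive.toMul v)))
        rw [map_mul, map_mul]; rfl
      smul_zero := by
        intro a
        show Additive.ofMul (MulAut.conjNormal (π a) (1 : X')) = 0
        rw [map_one]; rfl
      smul_add := by
        intro a v w
        show Additive.ofMul (MulAut.conjNormal (π a) (Additive.toMul v * Additive.toMul w)) =
          Additive.ofMul (MulAut.conjNormal (π a) (Additive.toMul v) *
            MulAut.conjNormal (π a) (Additive.toMul w))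
        rw [map_mul] }
  have hsm : ∀ (a : M) (v : X'),
      ((Additive.toMul (a • (Additive.ofMul v)) : X') : G') = π a * v * (π a)⁻¹ :=
    fun a v => rfl
  have hodd : ¬ 2 ∣ Nat.card X' := by
    intro h2
    obtain ⟨z, hz⟩ := exists_prime_orderOf_dvd_card' (G := X') 2 h2
    have h3 : z ^ q = 1 := Subtype.ext (by simpa using hpow z z.2)
    have h4 := orderOf_dvd_of_pow_eq_one h3
    rw [hz] at h4
    exact hq2 ((Nat.prime_dvd_prime_iff_eq Nat.prime_two hq).1 h4).symm
  have hV : ∀ v : Additive X', q • v = 0 := by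
    intro v
    show Additive.ofMul ((Additive.toMul v) ^ q) = 0
    have : (Additive.toMul v) ^ q = 1 := Subtype.ext (by simpa using hpow _ (Additive.toMul v).2)
    rw [this]; rfl
  have hfix : ∀ v : Additive X', (∀ a ∈ A, a • v = v) → ∀ y ∈ Q, y • v = v := by
    intro v hv y hy
    have h1 : ∀ a' ∈ A', ((Additive.toMul v : X') : G') * a' = a' * (Additive.toMul v : X') := by
      intro a' ha'
      obtain ⟨a, ha, rfl⟩ := hAA' ha'
      have h2 := congrArg (fun w => ((Additive.toMul w : X') : G')) (hv a ha)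
      have h3 : π a * ((Additive.toMul v : X') : G') * (π a)⁻¹ = (Additive.toMul v : X') := h2
      rw [mul_inv_eq_iff_eq_mul] at h3
      exact h3.symm
    have h4 := hA'.comm_of_odd hodd (Additive.toMul v).2 h1 (π y)
      (hPP' (mem_map_of_mem π (hA.le_of_normal hQ2 hy)))
    apply Additive.toMul.injective
    apply Subtype.ext
    show π y * ((Additive.toMul v : X') : G') * (π y)⁻¹ = (Additive.toMul v : X')
    rw [← h4, mul_inv_cancel_right]
  intro x hx y hy v hv
  have key := lin_abs hS hA hc hQ2 hq hq2 hV hfix x hx y hy (Additive.ofMul (⟨v, hv⟩ : X'))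
  have h5 := congrArg (fun w => ((Additive.toMul w : X') : G')) key
  exact h5

/-- commutators `[res h M, Q]` lie in `FF G`. -/
theorem comm_mem_FF {m h : ℕ} (hS : PropS2 m h) [Finite G] [Group.IsSolvable G]
    {A P M Q : Subgroup G} (hA : SolIn A P) (hc : Nat.card A ≤ m) (hAM : A ≤ M)
    (hQM : Q ≤ M) (hQ2 : IsPGroup 2 Q) (hMQ : ∀ x ∈ M, ∀ y ∈ Q, x * y * x⁻¹ ∈ Q) :
    ∀ x ∈ res h M, ∀ y ∈ Q, x * y * x⁻¹ * y⁻¹ ∈ FF G := by
  intro x hx y hy X Y q hs v hv
  have := hs.hX
  have := hs.hY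
  set π := QuotientGroup.mk' Y with hπ
  have hπs : Function.Surjective π := QuotientGroup.mk'_surjective Y
  have hXn : (X.map π).Normal := Normal.map hs.hX π hπs
  have hQn : (Q.subgroupOf M).Normal := by
    constructor
    intro n hn g
    rw [mem_subgroupOf] at hn ⊢
    exact hMQ g g.2 n hn
  have key := lin_normal hS (A' := A.map π) (P' := P.map π) (X' := X.map π)
    (hA.map π hπs) hs.prime hs.ne_two ?_ ?_
    (M := M) (π.comp M.subtype) (A := A.subgroupOf M) (P := P.subgroupOf M)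
    (Q := Q.subgroupOf M) (hA.subgroupOf hAM) ((card_subgroupOf_le A M).trans hc)
    (hQ2.comap_of_injective M.subtype M.subtype_injective) ?_ ?_
  · have hx' : (⟨x, res_le h M hx⟩ : M) ∈ res h (⊤ : Subgroup M) := by
      rw [← res_top_map_subtype M h] at hx
      obtain ⟨z, hz, rfl⟩ := hx
      exact hz
    have h1 := key _ hx' ⟨y, hQM hy⟩ (mem_subgroupOf.2 hy) (π v) (mem_map_of_mem π hv)
    have h2 : π ((x * y * x⁻¹ * y⁻¹) * v * (x * y * x⁻¹ * y⁻¹)⁻¹ * v⁻¹) = 1 := by
      rw [map_mul, map_mul, map_mul, map_inv, map_inv, mul_inv_eq_one]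
      exact h1
    rwa [hπ, QuotientGroup.mk'_apply, QuotientGroup.eq_one_iff] at h2
  · rintro _ ⟨z, hz, rfl⟩
    rw [← map_pow, hπ, QuotientGroup.mk'_apply, QuotientGroup.eq_one_iff]
    exact hs.pow z hz
  · rintro _ ⟨z, hz, rfl⟩ _ ⟨w, hw, rfl⟩
    have h2 : π (z * w * z⁻¹ * w⁻¹) = 1 := by
      rw [hπ, QuotientGroup.mk'_apply, QuotientGroup.eq_one_iff]
      exact hs.comm z hz w hw
    rw [map_mul, map_mul, map_mul, map_inv, map_inv, mul_inv_eq_one,
      mul_inv_eq_iff_eq_mul] at h2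
    exact h2
  · rintro _ ⟨a, ha, rfl⟩
    exact ⟨⟨a, hAM ha⟩, mem_subgroupOf.2 ha, rfl⟩
  · rintro _ ⟨⟨a, ha'⟩, ha, rfl⟩
    exact mem_map_of_mem π ha

/-- Frattini argument for `Q = P ⊓ T`. -/
theorem frattini [Finite G] {P T : Subgroup G} [hT : T.Normal] (S : Sylow 2 G)
    (hSP : (S : Subgroup G) = P) : normalizer ((P ⊓ T : Subgroup G) : Set G) ⊔ T = ⊤ ∧
      ¬ 2 ∣ (P ⊓ T).relIndex T := by
  have hP2 : IsPGroup 2 P := by rw [← hSP]; exact S.2
  have hQ2 : IsPGroup 2 (P.subgroupOf T) :=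
    hP2.comap_of_injective T.subtype T.subtype_injective
  obtain ⟨R, hR⟩ := hQ2.exists_le_sylow
  have hR2 : IsPGroup 2 ((R : Subgroup T).map T.subtype) := R.2.map _
  obtain ⟨S', hS'⟩ := hR2.exists_le_sylow
  obtain ⟨g, hg⟩ := MulAction.exists_smul_eq G S S'
  have hgS : (S' : Subgroup G) = cj g P := by
    rw [← hg, ← hSP]; rfl
  have h1 : (R : Subgroup T).map T.subtype ≤ cj g (P ⊓ T) := by
    rw [cj_inf, cj_normal g T]
    refine le_inf (by rw [← hgS]; exact hS') ?_
    rintro _ ⟨x, _, rfl⟩; exact x.2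
  have h2 : P ⊓ T ≤ (R : Subgroup T).map T.subtype := by
    intro x hx
    exact ⟨⟨x, (mem_inf.1 hx).2⟩, hR (mem_subgroupOf.2 (mem_inf.1 hx).1), rfl⟩
  have h3 : P ⊓ T = (R : Subgroup T).map T.subtype := by
    apply eq_of_le_of_card_ge h2
    rw [← card_cj g (P ⊓ T)]
    exact card_le_of_le h1
  constructor
  · rw [h3]
    exact Sylow.normalizer_sup_eq_top R
  · rw [h3]
    have h4 : ((R : Subgroup T).map T.subtype).relIndex T = (R : Subgroup T).index := by
      rw [relIndex, ← comap_subtype, comap_map_eq_self_of_injective T.subtype_injective]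
    rw [h4]
    exact R.not_dvd_index

end

/-- the solvable step. -/
theorem bd_of_s2 {m h : ℕ} (hS : PropS2 m h) : Bd m (h + 2) := by
  intro G _ _ _ A P hA hc
  obtain ⟨S, hSP⟩ := hA.sylow
  -- `O / FF G` largest odd normal subgroup
  set π := QuotientGroup.mk' (FF G) with hπ
  have hπs : Function.Surjective π := QuotientGroup.mk'_surjective _
  obtain ⟨O₁, hO₁n, hO₁odd, hO₁max⟩ := exists_Oodd (G := G ⧸ FF G)
  set O := O₁.comap π with hO
  have hOn : O.Normal := Normal.comap hO₁n π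
  have hFO : FF G ≤ O := by
    intro x hx
    rw [hO, mem_comap]
    have : π x = 1 := by
      rw [hπ, QuotientGroup.mk'_apply, QuotientGroup.eq_one_iff]; exact hx
    rw [this]; exact one_mem _
  have hOmap : O.map π = O₁ := map_comap_eq_self_of_surjective hπs O₁
  have hEvO : Ev O ≤ FF G := by
    have h1 : Ev O ≤ π.ker := by
      rw [Ev_le_ker_iff, hOmap, Ev_eq_bot_iff]; exact hO₁odd
    rwa [hπ, QuotientGroup.ker_mk'] at h1
  have hOmax : ∀ N : Subgroup G, N.Normal → Ev N ≤ O → N ≤ O := by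
    intro N hN hE
    have h1 : Ev (N.map π) = ⊥ := by
      rw [Ev_map, Subgroup.map_eq_bot_iff, hπ, QuotientGroup.ker_mk', ← Ev_idem]
      exact (Ev_mono hE).trans hEvO
    have h2 := hO₁max (N.map π) (Normal.map hN π hπs) (Ev_eq_bot_iff.1 h1)
    rw [hO, ← map_le_iff_le_comap]
    exact h2
  -- `T / O` largest normal 2-subgroup
  set σ := QuotientGroup.mk' O with hσ
  have hσs : Function.Surjective σ := QuotientGroup.mk'_surjective _
  obtain ⟨T₁, hT₁n, hT₁2, hT₁max⟩ := exists_O2 (G := G ⧸ O)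
  set T := T₁.comap σ with hT
  have hTn : T.Normal := Normal.comap hT₁n σ
  have hOT : O ≤ T := by
    intro x hx
    rw [hT, mem_comap]
    have : σ x = 1 := by
      rw [hσ, QuotientGroup.mk'_apply, QuotientGroup.eq_one_iff]; exact hx
    rw [this]; exact one_mem _
  have hTmap : T.map σ = T₁ := map_comap_eq_self_of_surjective hσs T₁
  have hOdT : Od T ≤ O := by
    have h1 : Od T ≤ σ.ker := by
      rw [Od_le_ker_iff, hTmap, Od_eq_bot_iff]; exact hT₁2
    rwa [hσ, QuotientGroup.ker_mk'] at h1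
  -- Hall-Higman
  have hHH : centralizer (T₁ : Set (G ⧸ O)) ≤ T₁ := by
    have hsolv : Group.IsSolvable (G ⧸ O) := Group.isSolvable_of_surjective hσs
    apply hall_higman (exists_res_eq_bot ⊤) ?_ hT₁2 hT₁max
    intro N hN hodd
    have h1 : N.comap σ ≤ O := by
      apply hOmax _ (Normal.comap hN σ)
      have h2 : Ev (N.comap σ) ≤ σ.ker := by
        rw [Ev_le_ker_iff, map_comap_eq_self_of_surjective hσs, Ev_eq_bot_iff]; exact hodd
      rwa [hσ, QuotientGroup.ker_mk'] at h2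
    have h3 := map_mono (f := σ) h1
    rw [map_comap_eq_self_of_surjective hσs] at h3
    rw [eq_bot_iff]
    refine h3.trans ?_
    rw [le_bot_iff, Subgroup.map_eq_bot_iff, hσ, QuotientGroup.ker_mk']
  set Q := P ⊓ T with hQ
  have hQ2 : IsPGroup 2 Q := hA.isP.to_le inf_le_left
  obtain ⟨hfr, hidx⟩ := frattini (P := P) (T := T) S hSP
  set M := normalizer (Q : Set G) with hM
  have hMQ : ∀ x ∈ M, ∀ y ∈ Q, x * y * x⁻¹ ∈ Q := fun x hx y hy =>
    (mem_normalizer_iff.1 hx y).1 hy
  have hQM : Q ≤ M := le_normalizer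
  have hAM : A ≤ M := by
    intro a ha
    have haP : a ∈ P := hA.le ha
    rw [hM, mem_normalizer_iff]
    intro y
    rw [hQ, mem_inf, mem_inf]
    constructor
    · rintro ⟨h1, h2⟩
      exact ⟨P.mul_mem (P.mul_mem haP h1) (P.inv_mem haP), hTn.conj_mem y h2 a⟩
    · rintro ⟨h1, h2⟩
      constructor
      · have := P.mul_mem (P.mul_mem (P.inv_mem haP) h1) haP
        simpa [mul_assoc] using this
      · have := hTn.conj_mem _ h2 a⁻¹
        simpa [mul_assoc] using this
  -- `T = O ⊔ Q`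
  have hTOQ : T ≤ O ⊔ Q := by
    have hle : O ⊔ Q ≤ T := sup_le hOT inf_le_right
    have h1 : (O ⊔ Q).relIndex T ∣ Q.relIndex T := relIndex_dvd_of_le_left _ le_sup_right
    have h2 : (O ⊔ Q).relIndex T ∣ (Od T).relIndex T :=
      relIndex_dvd_of_le_left _ (hOdT.trans le_sup_left)
    obtain ⟨k, hk⟩ := isP2_index_Od T
    have h3 : (Od T).relIndex T = 2 ^ k := hk
    rw [h3] at h2
    obtain ⟨j, _, hj⟩ := (Nat.dvd_prime_pow Nat.prime_two).1 h2
    rcases j with _ | j
    · rw [pow_zero, relIndex_eq_one] at hj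
      exact hj
    · exfalso
      apply hidx
      refine dvd_trans ?_ h1
      rw [hj]; exact dvd_pow_self 2 (Nat.succ_ne_zero j)
  have hMO : M ⊔ O = ⊤ := by
    rw [eq_top_iff, ← hfr]
    refine sup_le le_sup_left (hTOQ.trans (sup_le le_sup_right (hQM.trans le_sup_left)))
  have hcomm := comm_mem_FF hS hA hc hAM hQM hQ2 hMQ
  -- `res h M ≤ T`
  have hMT : res h M ≤ T := by
    intro x hx
    rw [hT, mem_comap]
    apply hHH
    rw [mem_centralizer_iff]
    intro t₁ ht₁
    rw [SetLike.mem_coe, ← hTmap] at ht₁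
    obtain ⟨t, ht, rfl⟩ := ht₁
    obtain ⟨o, ho, y, hy, rfl⟩ := mem_sup_normal' (hTOQ ht)
    have h1 : x * y * x⁻¹ * y⁻¹ ∈ O := hFO (hcomm x hx y hy)
    have h2 : σ o = 1 := by
      rw [hσ, QuotientGroup.mk'_apply, QuotientGroup.eq_one_iff]; exact ho
    have h3 : σ (x * y * x⁻¹ * y⁻¹) = 1 := by
      rw [hσ, QuotientGroup.mk'_apply, QuotientGroup.eq_one_iff]; exact h1
    rw [map_mul, map_mul, map_mul, map_inv, map_inv, mul_inv_eq_one, mul_inv_eq_iff_eq_mul] at h3
    rw [map_mul, h2, one_mul, h3]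
  have h4 : res h (⊤ : Subgroup G) ≤ T := by
    rw [← hMO]
    exact (res_sup_le_sup h M O).trans (sup_le hMT hOT)
  have h5 : res (h + 1) (⊤ : Subgroup G) ≤ FF G :=
    (Ev_mono ((Od_mono h4).trans hOdT)).trans hEvO
  have h6 : res (h + 1) (⊤ : Subgroup G) ≤ Ev (FF G) := by
    rw [← Ev_res]; exact Ev_mono h5
  have h7 : Od (res (h + 1) (⊤ : Subgroup G)) = ⊥ :=
    le_bot_iff.1 ((Od_mono h6).trans Od_Ev_FF.le)
  show Ev (Od (res (h + 1) (⊤ : Subgroup G))) = ⊥
  rw [h7, Ev_bot]

end Pool.Agent.Th
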