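import Mathlib
import Pool.Agent.Helper9.Th.HH

set_option autoImplicit false

namespace Pool.Agent.Th

open Subgroup

section

variable {G : Type} [Group G] [Finite G]

omit [Finite G] in
theorem Ev_le_of_coprime_index {H N : Subgroup G} [N.Normal]
    (h : Nat.Coprime (N.subgroupOf H).index 2) : Ev H ≤ N := by
  rw [Ev_le_iff]
  rintro x hx ⟨n, hn⟩
  have h1 : (⟨x, hx⟩ : H) ^ (N.subgroupOf H).index ∈ N.subgroupOf H :=
    pow_index_mem (N.subgroupOf H) _
  rw [mem_subgroupOf] at h1
  have h2 : x ^ (N.subgroupOf H).index ∈ N := h1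
  have h3 : x ^ (2 ^ n) ∈ N := by rw [hn]; exact N.one_mem
  have h4 : x ^ (Nat.gcd (N.subgroupOf H).index (2 ^ n)) ∈ N := by
    have := (pow_gcd_eq_one (a := (QuotientGroup.mk x : G ⧸ N)) (m := (N.subgroupOf H).index)
      (n := 2 ^ n)).2
      ⟨by rw [← QuotientGroup.mk_pow, QuotientGroup.eq_one_iff]; exact h2,
       by rw [← QuotientGroup.mk_pow, QuotientGroup.eq_one_iff]; exact h3⟩
    rwa [← QuotientGroup.mk_pow, QuotientGroup.eq_one_iff] at this
  rw [(Nat.Coprime.pow_right n h).gcd_eq_one, pow_one] at h4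
  exact h4

omit [Finite G] in
theorem Od_le_of_index {H N : Subgroup G} [N.Normal]
    (h : ∃ k, (N.subgroupOf H).index = 2 ^ k) : Od H ≤ N := by
  obtain ⟨k, hk⟩ := h
  rw [Od_le_iff]
  rintro x hx ⟨n, hn⟩
  have h1 : (⟨x, hx⟩ : H) ^ (N.subgroupOf H).index ∈ N.subgroupOf H :=
    pow_index_mem (N.subgroupOf H) _
  rw [mem_subgroupOf] at h1
  have h2 : x ^ (N.subgroupOf H).index ∈ N := h1
  have h3 : x ^ (2 * n + 1) ∈ N := by rw [hn]; exact N.one_mem
  have h4 : x ^ (Nat.gcd (N.subgroupOf H).index (2 * n + 1)) ∈ N := by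
    have := (pow_gcd_eq_one (a := (QuotientGroup.mk x : G ⧸ N)) (m := (N.subgroupOf H).index)
      (n := 2 * n + 1)).2
      ⟨by rw [← QuotientGroup.mk_pow, QuotientGroup.eq_one_iff]; exact h2,
       by rw [← QuotientGroup.mk_pow, QuotientGroup.eq_one_iff]; exact h3⟩
    rwa [← QuotientGroup.mk_pow, QuotientGroup.eq_one_iff] at this
  have h5 : Nat.Coprime (N.subgroupOf H).index (2 * n + 1) := by
    rw [hk]; exact Nat.Coprime.pow_left k (Nat.coprime_two_left.2 ⟨n, rfl⟩)
  rw [h5.gcd_eq_one, pow_one] at h4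
  exact h4

omit [Finite G] in
theorem res_of_series (n : ℕ) (N : ℕ → Subgroup G) (h0 : N 0 = ⊥) (hn : N (2 * n + 1) = ⊤)
    (hnorm : ∀ i, (N i).Normal)
    (hs : ∀ i, i < 2 * n + 1 →
          (Even i → Nat.Coprime ((N i).subgroupOf (N (i + 1))).index 2) ∧
          (Odd i → ∃ k : ℕ, ((N i).subgroupOf (N (i + 1))).index = 2 ^ k)) :
    res n (⊤ : Subgroup G) = ⊥ := by
  have key : ∀ j, j ≤ n → res j (⊤ : Subgroup G) ≤ N (2 * (n - j)) := by
    intro j
    induction j with
    | zero =>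
      intro _
      have := hnorm (2 * n)
      rw [← hn, Nat.sub_zero]
      exact Ev_le_of_coprime_index ((hs (2 * n) (by omega)).1 (even_two_mul n))
    | succ j ih =>
      intro hj
      have h1 := ih (by omega)
      obtain ⟨e, he⟩ : ∃ e, n - j = e + 1 := ⟨n - j - 1, by omega⟩
      have he' : n - (j + 1) = e := by omega
      rw [he] at h1
      rw [he']
      have i1 := hnorm (2 * e + 1)
      have i2 := hnorm (2 * e)
      have h2 : Od (N (2 * (e + 1))) ≤ N (2 * e + 1) := by
        have := (hs (2 * e + 1) (by omega)).2 ⟨e, rfl⟩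
        exact Od_le_of_index this
      have h3 : Ev (N (2 * e + 1)) ≤ N (2 * e) :=
        Ev_le_of_coprime_index ((hs (2 * e) (by omega)).1 (even_two_mul e))
      exact (Ev_mono ((Od_mono h1).trans h2)).trans h3
  have := key n le_rfl
  rw [Nat.sub_self, mul_zero, h0] at this
  exact le_bot_iff.1 this

theorem series_of_res (n : ℕ) (h : res n (⊤ : Subgroup G) = ⊥) :
    ∃ N : ℕ → Subgroup G, N 0 = ⊥ ∧ N (2 * n + 1) = ⊤ ∧
        (∀ i, N i ≤ N (i + 1)) ∧ (∀ i, (N i).Normal) ∧
        (∀ i, i < 2 * n + 1 →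
          (Even i → Nat.Coprime ((N i).subgroupOf (N (i + 1))).index 2) ∧
          (Odd i → ∃ k : ℕ, ((N i).subgroupOf (N (i + 1))).index = 2 ^ k)) := by
  classical
  let N : ℕ → Subgroup G := fun i =>
    if 2 * n + 1 ≤ i then ⊤ else
      if i % 2 = 0 then res (n - i / 2) ⊤ else Od (res (n - i / 2 - 1) ⊤)
  have hNbig : ∀ i, 2 * n + 1 ≤ i → N i = ⊤ := fun i hi => by simp only [N, if_pos hi]
  have hNeven : ∀ e, e ≤ n → N (2 * e) = res (n - e) ⊤ := by
    intro e he
    have h1 : ¬ (2 * n + 1 ≤ 2 * e) := by omega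
    simp only [N, if_neg h1]
    rw [if_pos (by omega)]
    congr 2
    omega
  have hNodd : ∀ e, e < n → N (2 * e + 1) = Od (res (n - e - 1) ⊤) := by
    intro e he
    have h1 : ¬ (2 * n + 1 ≤ 2 * e + 1) := by omega
    simp only [N, if_neg h1]
    rw [if_neg (by omega)]
    congr 3
    omega
  have hstep : ∀ e, e < n → N (2 * e) = Ev (N (2 * e + 1)) := by
    intro e he
    rw [hNeven e he.le, hNodd e he]
    obtain ⟨d, hd⟩ : ∃ d, n - e = d + 1 := ⟨n - e - 1, by omega⟩
    rw [hd]
    rfl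
  have hstep2 : ∀ e, e < n → N (2 * e + 1) = Od (N (2 * e + 2)) := by
    intro e he
    rw [show 2 * e + 2 = 2 * (e + 1) by ring, hNeven (e + 1) he, hNodd e he]
    congr 2
  have hlast : N (2 * n) = Ev (N (2 * n + 1)) := by
    rw [hNeven n le_rfl, hNbig _ le_rfl, Nat.sub_self]
    rfl
  refine ⟨N, ?_, hNbig _ le_rfl, ?_, ?_, ?_⟩
  · have := hNeven 0 (Nat.zero_le _)
    rw [mul_zero, Nat.sub_zero, h] at this
    exact this
  · intro i
    by_cases hi : 2 * n + 1 ≤ i + 1
    · rw [hNbig _ hi]; exact le_top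
    · rcases Nat.even_or_odd' i with ⟨e, he | he⟩
      · subst he
        rw [hstep e (by omega)]; exact Ev_le _
      · subst he
        rw [hstep2 e (by omega)]; exact Od_le _
  · intro i
    by_cases hi : 2 * n + 1 ≤ i
    · rw [hNbig _ hi]; infer_instance
    · rcases Nat.even_or_odd' i with ⟨e, he | he⟩
      · subst he
        rw [hNeven e (by omega)]; infer_instance
      · subst he
        rw [hNodd e (by omega)]; infer_instance
  · intro i hi
    constructor
    · rintro ⟨e, he⟩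
      have he' : i = 2 * e := by omega
      subst he'
      rcases Nat.lt_or_ge e n with h1 | h1
      · rw [hstep e h1]; exact odd_index_Ev _
      · have h2 : e = n := by omega
        subst h2
        rw [hlast]; exact odd_index_Ev _
    · rintro ⟨e, he⟩
      subst he
      rw [hstep2 e (by omega)]
      exact isP2_index_Od _

end

end Pool.Agent.Th
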