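import Mathlib
import Pool.Agent.Helper9.Th.DMain
import Pool.Agent.Helper9.Th.Series
import Pool.Agent.Helper9.Th.ThmI

set_option autoImplicit false

namespace Pool.Agent.Th

open Subgroup

theorem bd_all (hW : LemW) (hBC : BC)
    (hS : ∀ m F h : ℕ, Bd (m - 1) F → ThmI m h → ∃ h', PropS2 m h') :
    ∀ m : ℕ, ∃ F, Bd m F := by
  intro m
  induction m with
  | zero => exact ⟨1, Bd_mono (Nat.zero_le 1) le_rfl Bd_one⟩
  | succ m ih =>
    obtain ⟨F, hF⟩ := ih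
    obtain ⟨h, hI⟩ := thmI_of hW hBC (m := m + 1) (F := F) hF
    obtain ⟨h', hS'⟩ := hS (m + 1) F h hF hI
    exact ⟨h' + 2, bd_of_s2 hS'⟩

theorem main_of (hR : Red) (hB : ∀ m : ℕ, ∃ F, Bd m F) :
    ∃ f : ℕ → ℕ, ∀ (G : Type) [Group G] [Finite G] (A : Subgroup G),
      (∃ n : ℕ, ∃ N : ℕ → Subgroup G, N 0 = ⊥ ∧ N (2 * n + 1) = ⊤ ∧
        (∀ i, N i ≤ N (i + 1)) ∧ (∀ i, (N i).Normal) ∧
        (∀ i, i < 2 * n + 1 →
          (Even i → Nat.Coprime ((N i).subgroupOf (N (i + 1))).index 2) ∧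
          (Odd i → ∃ k : ℕ, ((N i).subgroupOf (N (i + 1))).index = 2 ^ k))) →
      (∃! P : Sylow 2 G, A ≤ (P : Subgroup G)) →
      ∃ N : ℕ → Subgroup G, N 0 = ⊥ ∧ N (2 * f (Nat.card A) + 1) = ⊤ ∧
        (∀ i, N i ≤ N (i + 1)) ∧ (∀ i, (N i).Normal) ∧
        (∀ i, i < 2 * f (Nat.card A) + 1 →
          (Even i → Nat.Coprime ((N i).subgroupOf (N (i + 1))).index 2) ∧
          (Odd i → ∃ k : ℕ, ((N i).subgroupOf (N (i + 1))).index = 2 ^ k)) := by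
  choose F hF using hB
  refine ⟨fun n => F n + 1, ?_⟩
  intro G _ _ A ⟨n, N, h0, hn, _, hnorm, hs⟩ hA
  obtain ⟨P, hP⟩ := SolIn.of_existsUnique hA
  have hsep : ∃ n, res n (⊤ : Subgroup G) = ⊥ := ⟨n, res_of_series n N h0 hn hnorm hs⟩
  obtain ⟨H, hPH, hHs, hH⟩ := hR G hsep P
  have hAH : A ≤ H := hP.le.trans hPH
  have h1 : res (F (Nat.card A)) H = ⊥ := by
    rw [← res_top_eq_bot_iff]
    exact hF (Nat.card A) H (A.subgroupOf H) ((P : Subgroup G).subgroupOf H)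
      (hP.subgroupOf hAH) (card_subgroupOf_le A H)
  exact series_of_res _ (hH _ h1)

end Pool.Agent.Th
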